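import Pool.Agent.H77.RT.Asm
import Pool.Agent.H77.RT.T.ADD
import Pool.Agent.H77.RT.T.ALP
import Pool.Agent.H77.RT.T.ALS
import Pool.Agent.H77.RT.T.BAI
import Pool.Agent.H77.RT.T.BND
import Pool.Agent.H77.RT.T.EXN
import Pool.Agent.H77.RT.T.FIN
import Pool.Agent.H77.RT.T.GEO
import Pool.Agent.H77.RT.T.GRT
import Pool.Agent.H77.RT.T.IDF
import Pool.Agent.H77.RT.T.KER
import Pool.Agent.H77.RT.T.KNO
import Pool.Agent.H77.RT.T.L1F
import Pool.Agent.H77.RT.T.LIM
import Pool.Agent.H77.RT.T.LIN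
import Pool.Agent.H77.RT.T.LOC
import Pool.Agent.H77.RT.T.LSC
import Pool.Agent.H77.RT.T.NULL
import Pool.Agent.H77.RT.T.PAI
import Pool.Agent.H77.RT.T.POR
import Pool.Agent.H77.RT.T.PTW
import Pool.Agent.H77.RT.T.RAD
import Pool.Agent.H77.RT.T.TEM
import Pool.Agent.H77.RT.T.TRA
import Pool.Agent.H77.RT.T.ZER

/-! Project RT, part 1: all stubs combined. -/

set_option autoImplicit false

namespace Pool.Agent.H77.RT

open MeasureTheory Filter Topology Set
open scoped ENNReal ContDiff FourierTransform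

theorem hPOR : S_POR :=
  T.POR.main T.GRT.main (T.LIM.main T.KER.main) (T.BND.main T.KER.main)
    (T.PTW.main T.KER.main T.RAD.main)

theorem hZER : S_ZER :=
  T.ZER.main (T.ADD.main T.KER.main) (T.ALP.main T.RAD.main) T.LSC.main T.LOC.main T.BAI.main hPOR

theorem hPAI : S_PAI := T.PAI.main T.KER.main T.IDF.main T.TEM.main

theorem hFIN : S_FIN := T.FIN.main T.L1F.main

/-- the general theorem, part 1 -/
theorem all (f : ℝ × ℝ → ℂ) (hf : Measurable f) (h : ∀ n : ℝ × ℝ, n ≠ 0 → GoodN f n)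
    (h0 : LineZero f) : f =ᵐ[volume] 0 :=
  gen T.TRA.main T.TEM.main hZER hPAI hFIN T.NULL.main T.LIN.main T.ALS.main T.EXN.main T.GEO.main
    f hf h h0

theorem known (f : ℝ × ℝ → ℂ) (hf : Measurable f)
    (h : ∫⁻ q : ℝ × ℝ, ENNReal.ofReal (‖f q‖ / (1 + |q.1| + |q.2|)) < ⊤) (n : ℝ × ℝ) : GoodN f n :=
  T.KNO.main f hf h n

end Pool.Agent.H77.RT
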