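import Pool.Agent.H77.RT.Stm

/-!
# Project RT, part 2: countably many exceptional directions

STRONGER THEOREM. As in `Stm.lean`, but for countably many exceptional directions `z` it is only assumed
that `f` is integrable on almost every line of direction `z` (and that `f` is tempered).
Key point: an isolated singular direction `0` is impossible. The means
`g_n(x) = 2^(-n) ∫ f(x,y) χ(y/2^n) dy` tend to `0` for almost every `x`, their differences are band-limited to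
frequencies `≲ 2^(-n)`, so they are polynomials of bounded degree up to summable errors, and polynomials
are controlled by finitely many points.

File `Pool/Agent/H77/RT/T/NAME.lean`, `import Pool.Agent.H77.RT.Stm2`, namespace
`Pool.Agent.H77.RT.T.NAME`, `theorem main : S_NAME` (used stubs as hypotheses).
-/

set_option autoImplicit false

namespace Pool.Agent.H77.RT

open MeasureTheory Filter Topology Set
open scoped ENNReal ContDiff FourierTransform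

/-- smooth complex functions with compact support -/
def Sm (A : ℝ → ℂ) : Prop := ContDiff ℝ ∞ A ∧ HasCompactSupport A

/-- Fourier transforms of smooth functions with compact support in `ℝ \ {0}` -/
def Band (a : ℝ → ℂ) : Prop := ∃ A : ℝ → ℂ, Sm A ∧ (0 : ℝ) ∉ tsupport A ∧ a = 𝓕 A

/-- translation in `y` -/
def tr (f : ℝ × ℝ → ℂ) (t : ℝ) : ℝ × ℝ → ℂ := fun q => f (q.1, q.2 + t)

/-- shear -/
def shf (f : ℝ × ℝ → ℂ) (z : ℝ) : ℝ × ℝ → ℂ := fun q => f (q.1 + z * q.2, q.2)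

/-- **BNI** (60 lines). `Band` implies `Nice`: `a = 𝓕 A = iteratedDeriv L (𝓕 (A/(-2πiξ)^L))`, the function
`A/(-2πiξ)^L` is smooth with compact support because `A` vanishes near `0`. -/
def S_BNI : Prop := ∀ a : ℝ → ℂ, Band a → Nice a

/-- **IDG** (40 lines beyond IDF; same proof as IDF). The only new points: `a = 𝓕(|ξ| A(ξ))` is `Band`, and
`Θ` is a smooth function with compact support in the open set `U`, equal to `1` on the compact set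
`{-η/ξ | ξ ∈ tsupport A, η ∈ tsupport B}` (`exists_contDiff_...` / `exists_smooth_one_nhds...`). -/
def S_IDG : Prop := ∀ (A B : ℝ → ℂ) (U : Set ℝ), Sm A → (0 : ℝ) ∉ tsupport A → Sm B → IsOpen U →
  (∀ ξ ∈ tsupport A, ∀ η ∈ tsupport B, -η / ξ ∈ U) →
  ∃ (a : ℝ → ℂ) (Θ : ℝ → ℝ), Band a ∧ Test Θ ∧ tsupport Θ ⊆ U ∧
    ∀ x y : ℝ, 𝓕 A x * 𝓕 B y = ∫ t : ℝ, 𝓕 B t * kern a Θ x (y - t)

/-- **PAG** (same proof as PAI, with IDG). `theorem main (h : S_KER) (hb : S_BNI) (hi : S_IDG) : S_PAG`. -/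
def S_PAG : Prop := ∀ (f : ℝ × ℝ → ℂ) (N : ℕ) (U : Set ℝ), Measurable f → Tem f N → IsOpen U →
  (∀ t : ℝ, ∀ a, Band a → ∀ Θ, Test Θ → tsupport Θ ⊆ U → T (tr f t) a Θ = 0) →
  ∀ A B : ℝ → ℂ, Sm A → (0 : ℝ) ∉ tsupport A → Sm B →
    (∀ ξ ∈ tsupport A, ∀ η ∈ tsupport B, -η / ξ ∈ U) →
      ∫ q : ℝ × ℝ, f q * (𝓕 A q.1 * 𝓕 B q.2) = 0

/-- **UNI** (120 lines). Uniqueness for tempered functions tested with band-limited functions.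
PROOF. Let `φ` be a test function, `ψ = 𝓕⁻¹ φ` (Schwartz), `Y` smooth with compact support, `Y = 1` near `0`,
`Φ_n = ψ · Y(·/n)`. `∫ u 𝓕Φ_n = 0`; `𝓕Φ_n(x) → 𝓕ψ(x) = φ(x)` (dominated convergence) and
`(1 + |x|)^K |𝓕Φ_n(x)| ≤ C` uniformly in `n` (`|x|^j |𝓕Φ_n(x)| ≤ ∫ |Φ_n^(j)|`, derivatives of `Y(·/n)` are
bounded). So `∫ u φ = 0`; `ae_eq_zero_of_integral_contDiff_smul_eq_zero`. -/
def S_UNI : Prop := ∀ (u : ℝ → ℂ) (K : ℕ), Measurable u →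
  ∫⁻ x : ℝ, ENNReal.ofReal (‖u x‖ / (1 + |x|) ^ K) < ⊤ →
  (∀ Φ, Sm Φ → ∫ x : ℝ, u x * 𝓕 Φ x = 0) → u =ᵐ[volume] 0

/-- **BAN** (80 lines). Reproducing formula for band-limited functions. `theorem main (h : S_UNI) : S_BAN`.
PROOF. `Φ (1 - Y)` vanishes on `|ξ| ≤ 2ρ`, so `∫ h 𝓕Φ = ∫ h 𝓕(Φ Y)`; `𝓕(ΦY)(x) = ∫ 𝓕Φ(u) 𝓕Y(x-u) du`
(convolution theorem or Fubini + inversion), Fubini: `= ∫ 𝓕Φ(u) (∫ h(x) 𝓕Y(x-u) dx) du`. Apply UNI to the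
difference (its weight: `(1+|u|)^(-K-2)`). -/
def S_BAN : Prop := ∀ (h : ℝ → ℂ) (K : ℕ) (ρ : ℝ) (Y : ℝ → ℂ), 0 < ρ → Measurable h →
  ∫⁻ x : ℝ, ENNReal.ofReal (‖h x‖ / (1 + |x|) ^ K) < ⊤ →
  (∀ A, Sm A → (∀ ξ ∈ tsupport A, ρ ≤ |ξ|) → ∫ x : ℝ, h x * 𝓕 A x = 0) →
  Sm Y → (∀ ξ, |ξ| ≤ 2 * ρ → Y ξ = 1) →
  h =ᵐ[volume] fun u => ∫ x : ℝ, h x * 𝓕 Y (x - u)

/-- **TAY** (150 lines). `theorem main (h : S_BAN) : S_TAY`.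
PROOF. `q = 2K + 1`, `q' = K + q`. Fix `Y` smooth with compact support, `Y = 1` on `[-2c, 2c]`; BAN with
`ρ = c 2^(-n)` and the cut-off `Y(2^n ·)`, `𝓕(Y(2^n ·))(x) = 2^(-n) (𝓕Y)(2^(-n) x)`. So `h = H` a.e.,
`H(u) = 2^(-n) ∫ h(x) (𝓕Y)(2^(-n)(x-u)) dx`, smooth (differentiate under the integral, or write the Taylor
formula with integral remainder for the smooth function `v ↦ 𝓕Y(2^(-n)(x-v))` at `v = 0` and integrate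
against `h`: no differentiation of `H` needed): `H = P + e`, `P` of degree `< q`, and
`|e(u)| ≤ 2^(-n) ∫ |h(x)| |u|^q 2^(-nq) sup_{|v| ≤ |u|} |(𝓕Y)^(q)(2^(-n)(x-v))| dx`,
`|(𝓕Y)^(q)(s)| ≤ C (1+|s|)^(-K)`, `(1 + 2^(-n)|x-v|)^(-K) ≤ 2^(nK) (1+|u|)^K (1+|x|)^(-K)`. Total:
`C D |u|^q (1+|u|)^K 2^(-n(q+1)) 2^(2nK) = C D 4^(-n) ...`. -/
def S_TAY : Prop := ∀ (K : ℕ) (c : ℝ), 0 < c → ∃ (q q' : ℕ) (C₁ : ℝ), ∀ (n : ℕ) (h : ℝ → ℂ) (D : ℝ),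
  0 ≤ D → Measurable h →
  ∫⁻ x : ℝ, ENNReal.ofReal (‖h x‖ / (1 + |x|) ^ K) ≤ ENNReal.ofReal (D * 2 ^ (n * K)) →
  (∀ A, Sm A → (∀ ξ ∈ tsupport A, c * (1 / 2) ^ n ≤ |ξ|) → ∫ x : ℝ, h x * 𝓕 A x = 0) →
  ∃ (P : Polynomial ℂ) (e : ℝ → ℂ), P.natDegree ≤ q ∧
    (∀ u, ‖e u‖ ≤ C₁ * D * (1 / 4) ^ n * (1 + |u|) ^ q') ∧
    h =ᵐ[volume] fun u => P.eval (u : ℂ) + e u

/-- **SEQ** (150 lines). The one-dimensional key lemma. `theorem main (h : S_TAY) : S_SEQ`.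
PROOF. `h_n = g_n - g_{n+1}` satisfies TAY with `D = C (1 + 2^K)`: `h_n = P_n + e_n` a.e.,
`|e_n(u)| ≤ C' 4^(-n) (1+|u|)^q'`. For `m ≥ n`: `g_n - g_m = Q_m + S_m` a.e., `Q_m = ∑_{n≤j<m} P_j` of degree
`≤ q`, `S_m = ∑ e_j`, `|S_m(u)| ≤ 2C' (1+|u|)^q'`, `S_m(u)` converges. Choose `q + 1` different points `u_i` in
the full measure set where `g_m(u_i) → 0` and all these (countably many) identities hold: `Q_m(u_i)`
converges, so (Lagrange interpolation, `Lagrange.interpolate`) `Q_m(u) = ∑ Q_m(u_i) ℓ_i(u)` converges for all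
`u`, and `|Q_m(u)| ≤ C'' (1+|u|)^q`. So `|g_m(u)| ≤ |g_n(u)| + C'''(1+|u|)^(q+q')` a.e., and `g_m → 0` a.e.:
dominated convergence: `∫ g_m 𝓕A → 0` (`𝓕A` is Schwartz). By the last hypothesis and induction
`∫ g_n 𝓕A = ∫ g_m 𝓕A` for all `m ≥ n` (`c 2^(-m) ≤ c 2^(-n) ≤ |ξ|`), so it is `0`. -/
def S_SEQ : Prop := ∀ (g : ℕ → ℝ → ℂ) (K : ℕ) (c C : ℝ), 0 < c → 0 ≤ C → (∀ n, Measurable (g n)) →
  (∀ n, ∫⁻ x : ℝ, ENNReal.ofReal (‖g n x‖ / (1 + |x|) ^ K) ≤ ENNReal.ofReal (C * 2 ^ (n * K))) →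
  (∀ᵐ x : ℝ, Tendsto (fun n => g n x) atTop (𝓝 0)) →
  (∀ n A, Sm A → (∀ ξ ∈ tsupport A, c * (1 / 2) ^ n ≤ |ξ|) →
    ∫ x : ℝ, (g n x - g (n + 1) x) * 𝓕 A x = 0) →
  ∀ n A, Sm A → (∀ ξ ∈ tsupport A, c * (1 / 2) ^ n ≤ |ξ|) → ∫ x : ℝ, g n x * 𝓕 A x = 0

/-- **ISM** (100 lines). `theorem main (h : S_SEQ) : S_ISM`.
PROOF. `g_n(x) = ∫ f(x,y) 𝓕(X(2^n ·))(y) dy`, `𝓕(X(2^n ·))(y) = 2^(-n) (𝓕X)(2^(-n) y)`,
`|𝓕X(s)| ≤ C (1+|s|)^(-N)`. (1) `∫ |g_n| (1+|x|)^(-N) ≤ C 2^(nN) ∫ |f| (1+|x|+|y|)^(-N)` because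
`(1+|x|)(1+|y|) ≥ 1+|x|+|y|`. (2) `|g_n(x)| ≤ 2^(-n) sup|𝓕X| ∫ |f(x,y)| dy → 0` for a.e. `x`. (3) Fubini. (If
`g_n` must be measurable everywhere: `StronglyMeasurable.integral_prod_right`.) -/
def S_ISM : Prop := ∀ (f : ℝ × ℝ → ℂ) (N : ℕ) (X : ℝ → ℂ) (c : ℝ), Measurable f → Tem f N → Sm X →
  0 < c → (∀ᵐ x : ℝ, Integrable fun y : ℝ => f (x, y)) →
  (∀ (n : ℕ) (A : ℝ → ℂ), Sm A → (∀ ξ ∈ tsupport A, c * (1 / 2) ^ n ≤ |ξ|) →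
    ∫ q : ℝ × ℝ, f q * (𝓕 A q.1 * 𝓕 (fun η => X (2 ^ n * η) - X (2 ^ (n + 1) * η)) q.2) = 0) →
  ∀ (n : ℕ) (A : ℝ → ℂ), Sm A → (∀ ξ ∈ tsupport A, c * (1 / 2) ^ n ≤ |ξ|) →
    ∫ q : ℝ × ℝ, f q * (𝓕 A q.1 * 𝓕 (fun η => X (2 ^ n * η)) q.2) = 0

/-- **REP** (120 lines). `theorem main (h : S_KER) (hb : S_BNI) : S_REP`.
PROOF. `a = 𝓕A`, `X = 1` at all `-R ξ k`, `ξ ∈ tsupport A`, `k ∈ tsupport Θ`. Then
`kern a Θ x y = ∫ A(ξ) e^{-2πiξx} (∫ Θ(k) e^{2πiξky} dk) dξ` and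
`kern a Θ x y = ∫_v kern a Θ x (y - v) 𝓕(X(R·))(v) dv` because
`∫_v e^{2πiξk(y-v)} 𝓕(X(R·))(v) dv = e^{2πiξky} X(-Rξk)` (inversion: `𝓕(𝓕g)(w) = g(-w)`). Insert in `T f a Θ`,
substitute `y' = y - v`, Fubini (integrand bounded by `|f| C (1+|x|+|y'|)^(-L) (1+|y-y'|)^(-L)`):
`T f a Θ = ∫_{y'} ∫∫ f(x, y' + v) kern a Θ x y' 𝓕(X(R·))(v) dx dv dy'` and for fixed `y'`,
`kern a Θ x y' = 𝓕(A_{y'})(x)`, `A_{y'}(ξ) = A(ξ) ∫ Θ(k) e^{2πiξky'} dk`, `Sm` with `tsupport ⊆ tsupport A`. -/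
def S_REP : Prop := ∀ (f : ℝ × ℝ → ℂ) (N : ℕ) (A X : ℝ → ℂ) (Θ : ℝ → ℝ) (R : ℝ), Measurable f →
  Tem f N → Sm A → (0 : ℝ) ∉ tsupport A → Sm X → Test Θ → 0 < R →
  (∀ ξ ∈ tsupport A, ∀ k ∈ tsupport Θ, X (-(R * (ξ * k))) = 1) →
  (∀ (t : ℝ) (A' : ℝ → ℂ), Sm A' → tsupport A' ⊆ tsupport A →
    ∫ q : ℝ × ℝ, tr f t q * (𝓕 A' q.1 * 𝓕 (fun η => X (R * η)) q.2) = 0) →
  T f (𝓕 A) Θ = 0

/-- **ISO** (150 lines). Isolated directions are impossible.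
`theorem main (hr : S_REP) (hm : S_ISM) (hp : S_PAG) (ht : S_TEM) (ha : S_ADD) (hb : S_BNI) : S_ISO`.
PROOF. `X` smooth, `tsupport X ⊆ [-1,1]`, `X = 1` on `[-1/2,1/2]`; `c > 1/δ`. `B = X(2^n·) - X(2^(n+1)·)` has
`tsupport ⊆ {2^(-n-2) ≤ |η| ≤ 2^(-n)}`; if `|ξ| ≥ c 2^(-n)` then `0 < |η/ξ| ≤ 1/c < δ`: PAG with
`U = {k | k ≠ 0 ∧ |k| < δ}` for every translate `tr f t` (`tr (tr f t) s = tr f (t+s)`, `Tem` by TEM, integrable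
on almost all vertical lines), then ISM: `∫ tr f t · 𝓕A' 𝓕(X(2^n·)) = 0` if `|ξ| ≥ c 2^(-n)` on `tsupport A'`. Now
`a = 𝓕A`, choose `n` with `|ξ| ≥ c 2^(-n)` on `tsupport A` (compact, without `0`), `R = 2^n`, and split
`Θ = Θ ω(M·) + Θ (1 - ω(M·))`, `ω` smooth, `ω = 1` near `0`, `supp ω ⊆ [-1,1]`, `M` so large that `X(-Rξk) = 1` for
`|k| ≤ 1/M`: the first part by REP, the second by hypothesis (`t = 0`), ADD. -/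
def S_ISO : Prop := ∀ (f : ℝ × ℝ → ℂ) (N : ℕ) (δ : ℝ), Measurable f → Tem f N → 0 < δ →
  (∀ᵐ x : ℝ, Integrable fun y : ℝ => f (x, y)) →
  (∀ t : ℝ, ∀ a, Band a → ∀ Θ, Test Θ → tsupport Θ ⊆ {k | k ≠ 0 ∧ |k| < δ} → T (tr f t) a Θ = 0) →
  ∀ a, Band a → ∀ Θ, Test Θ → tsupport Θ ⊆ Ioo (-δ) δ → T f a Θ = 0

/-- **SHR** (90 lines). Shears. (1) `tr (shf f z) t (x,y) = f(x + z y + z t, y + t)`; substitute
`x' = x + z y + z t`: `a(x - k y) = a(x' - z t - (z + k) y)`. (2) `1 + |x| + |y| ≤ (1 + |z|)(1 + |x + z y| + |y|)`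
up to a constant. (3) `a(· - s) = 𝓕(e^{2πisξ} A)`. (4) vertical lines of `shf f z` are the lines of slope `z`. -/
def S_SHR : Prop :=
  (∀ (f : ℝ × ℝ → ℂ) (z t : ℝ) (a : ℝ → ℂ) (Θ : ℝ → ℝ), Measurable f →
    T (tr (shf f z) t) a Θ = T (tr f t) (fun x => a (x - z * t)) (fun k => Θ (k - z))) ∧
  (∀ (f : ℝ × ℝ → ℂ) (z : ℝ) (N : ℕ), Measurable f → Tem f N → Tem (shf f z) N) ∧
  (∀ (a : ℝ → ℂ) (s : ℝ), Band a → Band fun x => a (x - s)) ∧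
  ∀ (f : ℝ × ℝ → ℂ) (z : ℝ), (∀ᵐ p : ℝ, Integrable fun y : ℝ => f (p + z * y, y)) →
    ∀ᵐ x : ℝ, Integrable fun y : ℝ => shf f z (x, y)

/-- **TRW** (40 lines). `1 + |x - k y| ≤ (1 + |x - k y + k t|)(1 + |k t|)`, translation. -/
def S_TRW : Prop := ∀ (f : ℝ × ℝ → ℂ) (N : ℕ) (k t : ℝ), Measurable f →
  W (tr f t) N k ≤ ENNReal.ofReal ((1 + |k * t|) ^ N) * W f N k

/-- **ZE2** (200 lines; modelled on ZER). `theorem main (ha : S_ADD) (hal : S_ALP) (hl : S_LSC)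
(hlo : S_LOC) (hb : S_BAI) (hp : S_POR) (ht : S_TRA) (hte : S_TEM) (htw : S_TRW) (hs : S_SHR) (hi : S_ISO)
(hbn : S_BNI) : S_ZE2`.
PROOF. `E = {k | ∀ ε > 0, ∃ t a Θ, Band a ∧ Test Θ ∧ tsupport Θ ⊆ Ioo (k-ε) (k+ε) ∧ T (tr f t) a Θ ≠ 0}` is closed.
`T (tr f t) a Θ = 0` for all `t`, `Band a`, if `tsupport Θ` is disjoint from `E` (LOC, ADD). Suppose `E` is not empty.
No `k ∈ E` has `∫_{(c,d)} W f N < ∞`, `c < k < d` (ALP for `tr f t`, TRW on the same interval). So `E` is covered by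
the closed sets `{W f N k ≤ M}` and `{z}`, `z ∈ Z` with the integrability; BAI. Case 1, `W f N ≤ M` on `E ∩ (c,d)`:
POR for each `tr f t` (TRW: `W (tr f t) N k ≤ M' < ∞`) gives `T (tr f t) a Θ = 0` in `(c,d)`, contradiction. Case
2, `E ∩ (c,d) = {z}`: `(z-δ, z+δ) ⊆ (c,d)`; by SHR the function `shf f z` satisfies the hypotheses of ISO (test
functions in `{0 < |k| < δ}` become test functions in `(z-δ,z+δ) \ {z}`, disjoint from `E`), and so does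
`tr (shf f z) t`; so `T (tr (shf f z) t) a Θ = 0` for all tests in `(-δ,δ)`, that is `T (tr f t) a' Θ' = 0` for all
tests `Θ'` in `(z-δ,z+δ)` and `Band a'` (`a = a'(· + z t)`): contradiction with `z ∈ E`. -/
def S_ZE2 : Prop := ∀ (f : ℝ × ℝ → ℂ) (N₀ : ℕ) (Z : Set ℝ), Measurable f → Tem f N₀ → Z.Countable →
  (∀ k, Good f k ∨ (k ∈ Z ∧ ∀ᵐ p : ℝ, Integrable fun y : ℝ => f (p + k * y, y))) →
  (∀ᵐ k : ℝ, Van f k) → ∀ t : ℝ, ∀ a, Band a → ∀ Θ, Test Θ → T (tr f t) a Θ = 0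

/-! ## General directions -/

/-- `f` is integrable on almost every line `{x | n·x = p}` -/
def ExN (f : ℝ × ℝ → ℂ) (n : ℝ × ℝ) : Prop :=
  ∀ᵐ p : ℝ, Integrable fun s : ℝ => f (p * n.1 / (n.1 ^ 2 + n.2 ^ 2) - s * n.2,
    p * n.2 / (n.1 ^ 2 + n.2 ^ 2) + s * n.1)

/-- the hypothesis: every direction is good, or exceptional (parallel to a vector of `Z`) and `f` is
integrable on almost every line of this direction -/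
def Hyp (f : ℝ × ℝ → ℂ) (Z : Set (ℝ × ℝ)) : Prop :=
  ∀ n : ℝ × ℝ, n ≠ 0 → GoodN f n ∨ ((∃ z ∈ Z, z ≠ 0 ∧ n.1 * z.2 = n.2 * z.1) ∧ ExN f n)

/-- **SL2** (60 lines). Slopes: `n = (1,-k)`; the parameter of the line `x - k y = p` is affine in `y`. At most
one `k` is parallel to a given `z ≠ 0`. `theorem main (h : S_ALS) : S_SL2`. -/
def S_SL2 : Prop := ∀ (f : ℝ × ℝ → ℂ) (Z : Set (ℝ × ℝ)), Measurable f → Z.Countable → Hyp f Z →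
  ∃ Z' : Set ℝ, Z'.Countable ∧
    ∀ k, Good f k ∨ (k ∈ Z' ∧ ∀ᵐ p : ℝ, Integrable fun y : ℝ => f (p + k * y, y))

/-- **EX2** (90 lines). Two independent directions with `Wn < ∞`: almost every `n` near `(1,0)` (resp.
`(0,1)`) is not parallel to a vector of `Z` (countably many lines are null), so `GoodN f n`: take such an `n` in
`ball (1,0) (1/8)`, then `n` itself or a point near it has `Wn < ⊤` (`ae_lt_top`). Common `N` by monotonicity. -/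
def S_EX2 : Prop := ∀ (f : ℝ × ℝ → ℂ) (Z : Set (ℝ × ℝ)), Measurable f → Z.Countable → Hyp f Z →
  ∃ (n₁ n₂ : ℝ × ℝ) (N : ℕ), n₁.1 * n₂.2 - n₁.2 * n₂.1 ≠ 0 ∧ Wn f N n₁ < ⊤ ∧ Wn f N n₂ < ⊤

/-- **GE2** (GEO with exceptional directions; 60 lines beyond GEO). `Z' = {n' | L n' ∈ Z}` (`L` is a linear
isomorphism, `Ln = (n.1 n₁.1 + n.2 n₂.1, n.1 n₁.2 + n.2 n₂.2)`), `ExN f (L n') → ExN g n'`: affine substitution
in `s` (the base point moves by a multiple, depending linearly on `p`, of the direction). -/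
def S_GE2 : Prop := ∀ (f : ℝ × ℝ → ℂ) (n₁ n₂ : ℝ × ℝ) (Z : Set (ℝ × ℝ)), Measurable f → Z.Countable →
  n₁.1 * n₂.2 - n₁.2 * n₂.1 ≠ 0 → Hyp f Z →
  ∃ (g : ℝ × ℝ → ℂ) (Z' : Set (ℝ × ℝ)), Measurable g ∧ Z'.Countable ∧ Hyp g Z' ∧
    (∀ N : ℕ, Wn f N n₁ < ⊤ → Wn g N (1, 0) < ⊤) ∧ (∀ N : ℕ, Wn f N n₂ < ⊤ → Wn g N (0, 1) < ⊤) ∧
    (LineZero f → LineZero g) ∧ (g =ᵐ[volume] 0 → f =ᵐ[volume] 0)

end Pool.Agent.H77.RT
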