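import Pool.Agent.H77.RT.Asm
import Pool.Agent.H77.RT.Stm2

/-! Assembly of project RT, part 2 (countably many exceptional directions), with the stubs as
hypotheses. -/

set_option autoImplicit false

namespace Pool.Agent.H77.RT

open MeasureTheory Filter Topology Set
open scoped ENNReal ContDiff FourierTransform

/-- core theorem with exceptional slopes -/
theorem core2 (htem : S_TEM) (hze2 : S_ZE2) (hpag : S_PAG) (hfin : S_FIN)
    (f : ℝ × ℝ → ℂ) (N : ℕ) (Z : Set ℝ) (hf : Measurable f) (hZ : Z.Countable)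
    (hg : ∀ k, Good f k ∨ (k ∈ Z ∧ ∀ᵐ p : ℝ, Integrable fun y : ℝ => f (p + k * y, y)))
    (hv : ∀ᵐ k : ℝ, Van f k)
    (h1 : ∫⁻ q : ℝ × ℝ, ENNReal.ofReal (‖f q‖ / (1 + |q.1|) ^ N) < ⊤)
    (h2 : ∫⁻ q : ℝ × ℝ, ENNReal.ofReal (‖f q‖ / (1 + |q.2|) ^ N) < ⊤) : f =ᵐ[volume] 0 := by
  have hW : W f N 0 < ⊤ := by
    unfold W
    simpa using h1
  have hT : Tem f N := htem.1 f N 0 hf hW
  refine hfin f N hf h1 h2 ?_
  intro A B hA hAc hA0 hB hBc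
  refine hpag f N univ hf hT isOpen_univ ?_ A B ⟨hA, hAc⟩ hA0 ⟨hB, hBc⟩ (fun _ _ _ _ => mem_univ _)
  intro t a ha Θ hΘ _
  exact hze2 f N Z hf hT hZ hg hv t a ha Θ hΘ

/-- the general theorem with exceptional directions -/
theorem gen2 (htem : S_TEM) (hze2 : S_ZE2) (hpag : S_PAG) (hfin : S_FIN)
    (hnul : S_NUL) (hlin : S_LIN) (hsl2 : S_SL2) (hex2 : S_EX2) (hge2 : S_GE2)
    (f : ℝ × ℝ → ℂ) (hf : Measurable f) (Z : Set (ℝ × ℝ)) (hZ : Z.Countable) (h : Hyp f Z)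
    (h0 : LineZero f) : f =ᵐ[volume] 0 := by
  obtain ⟨n₁, n₂, N, hD, hn1, hn2⟩ := hex2 f Z hf hZ h
  obtain ⟨g, Z', hgm, hZ', hgh, g1, g2, g4, g5⟩ := hge2 f n₁ n₂ Z hf hZ hD h
  apply g5
  have e1 := g1 N hn1
  have e2 := g2 N hn2
  unfold Wn at e1 e2
  obtain ⟨Z'', hZ'', hgood⟩ := hsl2 g Z' hgm hZ' hgh
  refine core2 htem hze2 hpag hfin g N Z'' hgm hZ'' hgood (van_of hnul hlin g (g4 h0)) ?_ ?_
  · simpa using e1
  · simpa using e2

end Pool.Agent.H77.RT
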