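import Pool.Agent.H77.RT.All
import Pool.Agent.H77.RT.Asm2
import Pool.Agent.H77.RT.T.BAN
import Pool.Agent.H77.RT.T.BNI
import Pool.Agent.H77.RT.T.EX2
import Pool.Agent.H77.RT.T.GE2
import Pool.Agent.H77.RT.T.IDG
import Pool.Agent.H77.RT.T.ISM
import Pool.Agent.H77.RT.T.ISO
import Pool.Agent.H77.RT.T.PAG
import Pool.Agent.H77.RT.T.REP
import Pool.Agent.H77.RT.T.SEQ
import Pool.Agent.H77.RT.T.SHR
import Pool.Agent.H77.RT.T.SL2
import Pool.Agent.H77.RT.T.TAY
import Pool.Agent.H77.RT.T.TRW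
import Pool.Agent.H77.RT.T.UNI
import Pool.Agent.H77.RT.T.ZE2

/-! Project RT, part 2: all stubs combined. -/

set_option autoImplicit false

namespace Pool.Agent.H77.RT

open MeasureTheory Filter Topology Set
open scoped ENNReal ContDiff FourierTransform

theorem hBAN : S_BAN := T.BAN.main T.UNI.main

theorem hTAY : S_TAY := T.TAY.main hBAN

theorem hISM : S_ISM := T.ISM.main (T.SEQ.main hTAY)

theorem hPAG : S_PAG := T.PAG.main T.KER.main T.BNI.main T.IDG.main

theorem hISO : S_ISO :=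
  T.ISO.main (T.REP.main T.KER.main T.BNI.main) hISM hPAG T.TEM.main (T.ADD.main T.KER.main)
    T.BNI.main

theorem hZE2 : S_ZE2 :=
  T.ZE2.main (T.ADD.main T.KER.main) (T.ALP.main T.RAD.main) T.LSC.main T.LOC.main T.BAI.main hPOR
    T.TRA.main T.TEM.main T.TRW.main T.SHR.main hISO T.BNI.main

/-- the general theorem, part 2: countably many exceptional directions -/
theorem all2 (f : ℝ × ℝ → ℂ) (hf : Measurable f) (Z : Set (ℝ × ℝ)) (hZ : Z.Countable)
    (h : Hyp f Z) (h0 : LineZero f) : f =ᵐ[volume] 0 :=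
  gen2 T.TEM.main hZE2 hPAG hFIN T.NULL.main T.LIN.main (T.SL2.main T.ALS.main) T.EX2.main
    T.GE2.main f hf Z hZ h h0

end Pool.Agent.H77.RT
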