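import Pool.Agent.H77.RT.Stm3

/-! Assembly of project RT, part 3 (the spectrum of a counterexample), with the stubs as hypotheses. -/

set_option autoImplicit false

namespace Pool.Agent.H77.RT

open MeasureTheory Filter Topology Set
open scoped ENNReal ContDiff FourierTransform

theorem good_slope (hbox : S_BOX) (hcon : S_CON) (hftk : S_FTK) (hclt : S_CLT) (hgds : S_GDS)
    (f : ℝ × ℝ → ℂ) (hf : Cls f) (c d : ℝ) (hcd : c < d) :
    ∃ k δ : ℝ, c < k ∧ k < d ∧ 0 < δ ∧ VanF f (Ioo (k - δ) (k + δ)) := by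
  obtain ⟨⟨N, hT⟩, hl, hv, _⟩ := hclt f hf
  have hm : Measurable f := hf.1.measurable
  obtain ⟨c', d', a, b, M, h1, h2, h3, hab, hM⟩ := hbox f hf.1 hl c d hcd
  obtain ⟨c'', d'', N', g1, g2, g3, hW⟩ := hcon f N c' d' a b M hm hT h2 hab hM
  have hV := hgds f N N' c'' d'' hm hT (Eventually.of_forall hv) hW
  have hF := hftk f N _ hm hT isOpen_Ioo hV
  refine ⟨(c'' + d'') / 2, (d'' - c'') / 2, by linarith, by linarith, by linarith, ?_⟩
  intro Φ hΦ hs
  refine hF Φ hΦ fun m hm => ⟨(hs m hm).1, ?_⟩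
  have := (hs m hm).2
  constructor
  · linarith [this.1]
  · linarith [this.2]

theorem slope_pt (n1 k : ℝ) (h : n1 ≠ 0) : -(-(k * n1)) / n1 = k := by
  rw [neg_neg, mul_div_cancel_right₀ _ h]

theorem int_empty (hbox : S_BOX) (hcon : S_CON) (hftk : S_FTK) (hclt : S_CLT) (hgds : S_GDS)
    (hslo : S_SLO) (f : ℝ × ℝ → ℂ) (hf : Cls f) : interior (Sing f) = ∅ := by
  rw [Set.eq_empty_iff_forall_notMem]
  intro n hn
  rw [mem_interior_iff_mem_nhds, Metric.mem_nhds_iff] at hn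
  obtain ⟨ε, hε, hb⟩ := hn
  obtain ⟨n1, h1, h2⟩ : ∃ n1 : ℝ, n1 ≠ 0 ∧ |n1 - n.1| < ε := by
    by_cases h : n.1 = 0
    · refine ⟨ε / 2, by positivity, ?_⟩
      rw [h, sub_zero, abs_of_pos (by positivity)]
      linarith
    · exact ⟨n.1, h, by simpa using hε⟩
  have hn1 : 0 < |n1| := abs_pos.2 h1
  obtain ⟨k, δ, hk1, hk2, hδ, hF⟩ := good_slope hbox hcon hftk hclt hgds f hf
    (-n.2 / n1 - ε / |n1|) (-n.2 / n1 + ε / |n1|) (by have := div_pos hε hn1; linarith)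
  have hmem : ((n1, -(k * n1)) : ℝ × ℝ) ∈ Sing f := by
    apply hb
    rw [Metric.mem_ball, dist_eq_norm, Prod.norm_def, max_lt_iff]
    refine ⟨by simpa using h2, ?_⟩
    simp only [Prod.snd_sub, Real.norm_eq_abs]
    have e : -(k * n1) - n.2 = -(n1 * (k - -n.2 / n1)) := by
      field_simp
      ring
    rw [e, abs_neg, abs_mul]
    have : |k - -n.2 / n1| < ε / |n1| := by
      rw [abs_lt]
      constructor <;> linarith
    calc |n1| * |k - -n.2 / n1| < |n1| * (ε / |n1|) := by gcongr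
      _ = ε := by field_simp
  have := (hslo f (n1, -(k * n1)) h1).2 ⟨δ, hδ, by
    simp only
    rw [slope_pt n1 k h1]
    exact hF⟩
  exact this hmem

theorem W_le_Wn (f : ℝ × ℝ → ℂ) (N : ℕ) (n1 k : ℝ) (h : Wn f N (n1, -(k * n1)) < ⊤) :
    W f N k < ⊤ := by
  have key : W f N k ≤ ENNReal.ofReal ((max 1 |n1|) ^ N) * Wn f N (n1, -(k * n1)) := by
    unfold W Wn
    rw [← lintegral_const_mul' _ _ ENNReal.ofReal_ne_top]
    refine lintegral_mono fun q => ?_
    rw [← ENNReal.ofReal_mul (by positivity)]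
    apply ENNReal.ofReal_le_ofReal
    simp only
    have e : n1 * q.1 + -(k * n1) * q.2 = n1 * (q.1 - k * q.2) := by ring
    rw [e, abs_mul]
    set s := |q.1 - k * q.2| with hs
    have hs0 : 0 ≤ s := abs_nonneg _
    have h1 : 1 + |n1| * s ≤ max 1 |n1| * (1 + s) := by
      have a1 : (1 : ℝ) ≤ max 1 |n1| := le_max_left _ _
      have a2 : |n1| ≤ max 1 |n1| := le_max_right _ _
      nlinarith
    have h2 : (1 + |n1| * s) ^ N ≤ (max 1 |n1|) ^ N * (1 + s) ^ N := by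
      rw [← mul_pow]
      gcongr
    have p1 : 0 < (1 + |n1| * s) ^ N := by positivity
    have p2 : 0 < (1 + s) ^ N := by positivity
    rw [mul_div_assoc', div_le_div_iff₀ p2 p1]
    have := norm_nonneg (f q)
    nlinarith
  exact lt_of_le_of_lt key (ENNReal.mul_lt_top ENNReal.ofReal_lt_top h)

theorem near1 (hftk : S_FTK) (hclt : S_CLT) (hslo : S_SLO) (hktf : S_KTF) (hlze : S_LZE)
    (f : ℝ × ℝ → ℂ) (hf : Cls f) (n : ℝ × ℝ) (hn : n ∈ Sing f) (hn1 : n.1 ≠ 0) (δ : ℝ) (hδ : 0 < δ)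
    (Z : Set (ℝ × ℝ)) (hZ : Z.Countable) :
    ∃ n' ∈ Sing f, ‖n' - n‖ < δ ∧ (∀ z ∈ Z, z ≠ 0 → n'.1 * z.2 ≠ n'.2 * z.1) ∧
      ∀ N : ℕ, Wn f N n' = ⊤ := by
  by_contra hcon
  push Not at hcon
  obtain ⟨⟨N, hT⟩, hl, hv, _⟩ := hclt f hf
  have hm : Measurable f := hf.1.measurable
  have hn1' : 0 < |n.1| := abs_pos.2 hn1
  obtain ⟨z₀, hz₀⟩ : ∃ z₀ : ℝ, z₀ = -n.2 / n.1 := ⟨_, rfl⟩
  have hn2 : n.2 = -(z₀ * n.1) := by
    rw [hz₀]
    field_simp
  have hδ' : 0 < δ / |n.1| := div_pos hδ hn1'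
  have hV := hlze f N (z₀ - δ / |n.1|) (z₀ + δ / |n.1|)
    ((fun z : ℝ × ℝ => -z.2 / z.1) '' Z) hm hT (hZ.image _) (Eventually.of_forall hv) (by
      intro k hk1 hk2
      by_cases hs : ((n.1, -(k * n.1)) : ℝ × ℝ) ∈ Sing f
      · have hnorm : ‖((n.1, -(k * n.1)) : ℝ × ℝ) - n‖ < δ := by
          rw [Prod.norm_def, max_lt_iff]
          refine ⟨by simpa using hδ, ?_⟩
          simp only [Prod.snd_sub, Real.norm_eq_abs]
          have e : -(k * n.1) - n.2 = -(n.1 * (k - z₀)) := by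
            rw [hn2]
            ring
          rw [e, abs_neg, abs_mul]
          have : |k - z₀| < δ / |n.1| := by
            rw [abs_lt]
            constructor <;> linarith
          calc |n.1| * |k - z₀| < |n.1| * (δ / |n.1|) := by gcongr
            _ = δ := by field_simp
        right
        by_cases hz : ∀ z ∈ Z, z ≠ 0 → n.1 * z.2 ≠ -(k * n.1) * z.1
        · left
          obtain ⟨N', hN'⟩ := hcon _ hs hnorm hz
          exact Or.inl ⟨N', W_le_Wn f N' n.1 k (lt_top_iff_ne_top.2 hN')⟩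
        · right
          push Not at hz
          obtain ⟨z, hzZ, hz0, hzp⟩ := hz
          refine ⟨⟨z, hzZ, ?_⟩, Eventually.of_forall fun p => hl k p⟩
          have e1 : z.2 = -k * z.1 := by
            have : n.1 * z.2 = n.1 * (-k * z.1) := by
              rw [hzp]
              ring
            exact mul_left_cancel₀ hn1 this
          have e2 : z.1 ≠ 0 := by
            intro h0
            apply hz0
            rw [h0, mul_zero] at e1
            exact Prod.ext h0 e1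
          simp only
          rw [e1]
          field_simp
      · left
        obtain ⟨ε, hε, hF⟩ := (hslo f (n.1, -(k * n.1)) hn1).1 hs
        simp only [slope_pt n.1 k hn1] at hF
        exact ⟨ε, hε, hktf f _ hm hF⟩)
  have hF := hftk f N _ hm hT isOpen_Ioo hV
  exact (hslo f n hn1).2 ⟨δ / |n.1|, hδ', by rw [← hz₀]; exact hF⟩ hn

theorem near (hftk : S_FTK) (hclt : S_CLT) (hslo : S_SLO) (hktf : S_KTF) (hlze : S_LZE)
    (hswp : S_SWP) (f : ℝ × ℝ → ℂ) (hf : Cls f) (n : ℝ × ℝ) (hn : n ∈ Sing f) (δ : ℝ) (hδ : 0 < δ)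
    (Z : Set (ℝ × ℝ)) (hZ : Z.Countable) :
    ∃ n' ∈ Sing f, ‖n' - n‖ < δ ∧ (∀ z ∈ Z, z ≠ 0 → n'.1 * z.2 ≠ n'.2 * z.1) ∧
      ∀ N : ℕ, Wn f N n' = ⊤ := by
  by_cases hn1 : n.1 = 0
  · have hn2 : n.2 ≠ 0 := by
      intro h
      exact hn.1 (Prod.ext hn1 h)
    obtain ⟨s1, s2, s3⟩ := hswp f
    obtain ⟨n', h1, h2, h3, h4⟩ := near1 hftk hclt hslo hktf hlze (fun q => f (q.2, q.1)) (s1 hf)
      (n.2, n.1) ((s2 n).1 hn) hn2 δ hδ (Prod.swap '' Z) (hZ.image _)
    refine ⟨(n'.2, n'.1), (s2 _).2 h1, ?_, ?_, ?_⟩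
    · rw [Prod.norm_def, max_lt_iff] at h2 ⊢
      simp only [Prod.fst_sub, Prod.snd_sub] at h2 ⊢
      exact ⟨h2.2, h2.1⟩
    · intro z hz hz0 he
      apply h3 (z.2, z.1) ⟨z, hz, rfl⟩ ?_ ?_
      · intro h
        apply hz0
        have a1 := congrArg Prod.fst h
        have a2 := congrArg Prod.snd h
        exact Prod.ext a2 a1
      · simp only at he ⊢
        exact he.symm
    · intro N
      have := s3 N (n'.2, n'.1)
      rw [← this]
      exact h4 N
  · exact near1 hftk hclt hslo hktf hlze f hf n hn hn1 δ hδ Z hZ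

theorem empty_zero (hclt : S_CLT) (hslo : S_SLO) (hktf : S_KTF) (hlze : S_LZE) (hpag : S_PAG)
    (hevl : S_EVL) (f : ℝ × ℝ → ℂ) (hf : Cls f) (hS : Sing f = ∅) : ∀ x, f x = 0 := by
  obtain ⟨⟨N, hT⟩, hl, hv, hh⟩ := hclt f hf
  have hm : Measurable f := hf.1.measurable
  have hV : ∀ c d : ℝ, VanT f (Ioo c d) := by
    intro c d
    refine hlze f N c d ∅ hm hT countable_empty (Eventually.of_forall hv) fun k _ _ => Or.inl ?_
    have h1 : ((1, -(k * 1)) : ℝ × ℝ) ∉ Sing f := by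
      rw [hS]
      exact notMem_empty _
    obtain ⟨ε, hε, hF⟩ := (hslo f (1, -(k * 1)) one_ne_zero).1 h1
    simp only [slope_pt 1 k one_ne_zero] at hF
    exact ⟨ε, hε, hktf f _ hm hF⟩
  refine hevl f hf.1 hf.2.1 hh ?_
  intro A B hA hA0 hB
  refine hpag f N univ hm hT isOpen_univ ?_ A B hA hA0 hB (fun _ _ _ _ => mem_univ _)
  intro t a ha Θ hΘ _
  obtain ⟨R, hR⟩ := hΘ.2.isCompact.isBounded.subset_ball 0
  refine hV (-R) R t a ha Θ hΘ (hR.trans ?_)
  intro x hx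
  rw [Metric.mem_ball, dist_zero_right, Real.norm_eq_abs, abs_lt] at hx
  exact hx

end Pool.Agent.H77.RT
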