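import Pool.Agent.H77.RT.All2
import Pool.Agent.H77.RT.Asm3
import Pool.Agent.H77.RT.T.BOX
import Pool.Agent.H77.RT.T.CLO
import Pool.Agent.H77.RT.T.CLT
import Pool.Agent.H77.RT.T.CONT
import Pool.Agent.H77.RT.T.EVL
import Pool.Agent.H77.RT.T.FTK
import Pool.Agent.H77.RT.T.GDS
import Pool.Agent.H77.RT.T.KFT
import Pool.Agent.H77.RT.T.KTF
import Pool.Agent.H77.RT.T.LZE
import Pool.Agent.H77.RT.T.POL
import Pool.Agent.H77.RT.T.SLO
import Pool.Agent.H77.RT.T.SWP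

/-! Project RT, part 3: all stubs combined. -/

set_option autoImplicit false

namespace Pool.Agent.H77.RT

open MeasureTheory Filter Topology Set
open scoped ENNReal ContDiff FourierTransform

theorem hLZE : S_LZE :=
  T.LZE.main (T.ADD.main T.KER.main) (T.ALP.main T.RAD.main) T.LSC.main T.LOC.main T.BAI.main hPOR
    T.TRA.main T.TEM.main T.TRW.main T.SHR.main hISO T.BNI.main

theorem hGDS : S_GDS := T.GDS.main hLZE

theorem hFTK : S_FTK := T.FTK.main T.KER.main T.BNI.main T.SHR.main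

theorem hKTF : S_KTF := T.KTF.main T.KFT.main

theorem hEVL : S_EVL := T.EVL.main (T.POL.main hTAY)

/-- the spectrum of a counterexample -/
theorem all3 (f : ℝ × ℝ → ℂ) (hf : Cls f) :
    IsClosed (Sing f ∪ {0}) ∧ interior (Sing f) = ∅ ∧
    (∀ n ∈ Sing f, ∀ δ : ℝ, 0 < δ → ∀ Z : Set (ℝ × ℝ), Z.Countable →
      ∃ n' ∈ Sing f, ‖n' - n‖ < δ ∧
        (∀ z ∈ Z, z ≠ 0 → n'.1 * z.2 ≠ n'.2 * z.1) ∧ ∀ N : ℕ, Wn f N n' = ⊤) ∧
    (Sing f = ∅ → ∀ x, f x = 0) :=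
  ⟨T.CLO.main f, int_empty T.BOX.main T.CON.main hFTK T.CLT.main hGDS T.SLO.main f hf,
    fun n hn δ hδ Z hZ => near hFTK T.CLT.main T.SLO.main hKTF hLZE T.SWP.main f hf n hn δ hδ Z hZ,
    empty_zero T.CLT.main T.SLO.main hKTF hLZE hPAG hEVL f hf⟩

end Pool.Agent.H77.RT
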