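import Pool.Agent.H77.RT.Stm

/-! Assembly of project RT, with the stubs as hypotheses. -/

set_option autoImplicit false

namespace Pool.Agent.H77.RT

open MeasureTheory Filter Topology Set
open scoped ENNReal ContDiff FourierTransform

/-- core theorem: slopes and the two axes -/
theorem core (htra : S_TRA) (htem : S_TEM) (hzer : S_ZER) (hpai : S_PAI) (hfin : S_FIN)
    (f : ℝ × ℝ → ℂ) (N : ℕ) (hf : Measurable f) (hg : ∀ k, Good f k) (hv : ∀ᵐ k : ℝ, Van f k)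
    (h1 : ∫⁻ q : ℝ × ℝ, ENNReal.ofReal (‖f q‖ / (1 + |q.1|) ^ N) < ⊤)
    (h2 : ∫⁻ q : ℝ × ℝ, ENNReal.ofReal (‖f q‖ / (1 + |q.2|) ^ N) < ⊤) : f =ᵐ[volume] 0 := by
  have hW : W f N 0 < ⊤ := by
    unfold W
    simpa using h1
  have hT : Tem f N := htem.1 f N 0 hf hW
  refine hfin f N hf h1 h2 (hpai f N hf hT ?_)
  intro t a ha Θ hΘ
  have hft : Measurable fun q : ℝ × ℝ => f (q.1, q.2 + t) :=
    hf.comp (measurable_fst.prodMk (measurable_snd.add_const t))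
  obtain ⟨t1, t2⟩ := htra f t hf
  exact hzer _ N hft (htem.2 f N t hf hT) (fun k => t1 k (hg k)) (hv.mono fun k hk => t2 k hk) a ha Θ hΘ

/-- almost all lines, slopes -/
theorem van_of (hnul : S_NUL) (hlin : S_LIN) (f : ℝ × ℝ → ℂ) (h : LineZero f) :
    ∀ᵐ k : ℝ, Van f k := by
  have h1 := hnul (fun n => ∫ s : ℝ, f (n.1 / (n.1 ^ 2 + n.2 ^ 2) - s * n.2,
    n.2 / (n.1 ^ 2 + n.2 ^ 2) + s * n.1) = 0) h
  have h0 : ∀ᵐ p : ℝ, p ≠ 0 := by
    rw [ae_iff]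
    simp
  filter_upwards [h1] with k hk
  unfold Van
  filter_upwards [hk, h0] with p hp hp0
  exact hlin f k p hp0 hp

theorem good_of (hals : S_ALS) (f : ℝ × ℝ → ℂ) (hf : Measurable f)
    (h : ∀ n : ℝ × ℝ, n ≠ 0 → GoodN f n) (k : ℝ) : Good f k :=
  hals f k hf (h (1, -k) (by
    intro h0
    have := congrArg Prod.fst h0
    simp at this))

/-- the general theorem -/
theorem gen (htra : S_TRA) (htem : S_TEM) (hzer : S_ZER) (hpai : S_PAI) (hfin : S_FIN)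
    (hnul : S_NUL) (hlin : S_LIN) (hals : S_ALS) (hexn : S_EXN) (hgeo : S_GEO)
    (f : ℝ × ℝ → ℂ) (hf : Measurable f) (h : ∀ n : ℝ × ℝ, n ≠ 0 → GoodN f n)
    (h0 : LineZero f) : f =ᵐ[volume] 0 := by
  obtain ⟨n₁, n₂, N, hD, hn1, hn2⟩ := hexn f hf h
  obtain ⟨g, hgm, g1, g2, g3, g4, g5⟩ := hgeo f n₁ n₂ hf hD
  apply g5
  have e1 := g1 N hn1
  have e2 := g2 N hn2
  unfold Wn at e1 e2
  refine core htra htem hzer hpai hfin g N hgm (good_of hals g hgm (g3 h))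
    (van_of hnul hlin g (g4 h0)) ?_ ?_
  · simpa using e1
  · simpa using e2

end Pool.Agent.H77.RT
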