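import Mathlib

/-!
# Project RT (MP_9de3af_an, injectivity of the Radon transform in the plane)

THEOREM. Let `f : ℝ × ℝ → ℂ` be measurable and suppose that for EVERY direction `n` there is an
exponent `N` (depending on `n`, no uniformity) with `∫ |f(x)| (1 + |n·x|)^(-N) dx < ∞`. If the integral
of `f` over almost every line is zero, then `f = 0` almost everywhere. (No growth condition, no
continuity.)

Every stub: file `Pool/Agent/H77/RT/T/NAME.lean`, `import Pool.Agent.H77.RT.Stm`, namespace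
`Pool.Agent.H77.RT.T.NAME`, `theorem main : S_NAME` (used stubs as hypotheses:
`theorem main (h : S_KER) : S_NAME`). Only Mathlib is needed.

Lines of slope `k`: `x = p + k y`. `kern a Θ x y = ∫ Θ(k) a(x - k y) dk` is a superposition of ridge
functions.
-/

set_option autoImplicit false

namespace Pool.Agent.H77.RT

open MeasureTheory Filter Topology Set
open scoped ENNReal ContDiff FourierTransform

/-- smooth real functions with compact support -/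
def Test (Θ : ℝ → ℝ) : Prop := ContDiff ℝ ∞ Θ ∧ HasCompactSupport Θ

/-- `a` is the `L`-th derivative of a Schwartz function for every `L` -/
def Nice (a : ℝ → ℂ) : Prop := ∀ L : ℕ, ∃ b : SchwartzMap ℝ ℂ, ∀ x, a x = iteratedDeriv L b x

/-- `W f N k = ∫∫ |f(x,y)| (1 + |x - k y|)^(-N) dx dy` -/
noncomputable def W (f : ℝ × ℝ → ℂ) (N : ℕ) (k : ℝ) : ℝ≥0∞ :=
  ∫⁻ q : ℝ × ℝ, ENNReal.ofReal (‖f q‖ / (1 + |q.1 - k * q.2|) ^ N)

/-- `f` is tempered with exponent `N` -/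
def Tem (f : ℝ × ℝ → ℂ) (N : ℕ) : Prop :=
  Integrable fun q : ℝ × ℝ => ‖f q‖ / (1 + |q.1| + |q.2|) ^ N

/-- `kern a Θ x y = ∫ Θ(k) a(x - k y) dk` -/
noncomputable def kern (a : ℝ → ℂ) (Θ : ℝ → ℝ) (x y : ℝ) : ℂ :=
  ∫ k : ℝ, (Θ k : ℂ) * a (x - k * y)

/-- the pairing of `f` with `kern a Θ` -/
noncomputable def T (f : ℝ × ℝ → ℂ) (a : ℝ → ℂ) (Θ : ℝ → ℝ) : ℂ :=
  ∫ q : ℝ × ℝ, f q * kern a Θ q.1 q.2

/-- `Gr f a θ r k = ∫∫ f(x,y) ∫ θ(s) a(x - (k + r s) y) ds dx dy`: the mean over the slopes `k + r s` -/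
noncomputable def Gr (f : ℝ × ℝ → ℂ) (a : ℝ → ℂ) (θ : ℝ → ℝ) (r k : ℝ) : ℂ :=
  ∫ q : ℝ × ℝ, f q * kern a θ (q.1 - k * q.2) (r * q.2)

/-- the integrals of `f` over almost all lines `x = p + k y` of slope `k` vanish -/
def Van (f : ℝ × ℝ → ℂ) (k : ℝ) : Prop := ∀ᵐ p : ℝ, ∫ y : ℝ, f (p + k * y, y) = 0

/-- the hypothesis on the slope `k`: `W f N k < ∞` for some `N`, or `W f N` is integrable near `k` -/
def Good (f : ℝ × ℝ → ℂ) (k : ℝ) : Prop :=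
  (∃ N, W f N k < ⊤) ∨ ∃ (N : ℕ) (c d : ℝ), c < k ∧ k < d ∧ ∫⁻ t in Ioo c d, W f N t < ⊤

/-! ## Level 1: independent stubs -/

/-- **KER** (130 lines). Decay of the kernel.
PROOF. Let `supp Θ ⊆ [-r, r]`, `r ≥ 1`, and let `a = b^(N)` with `b` Schwartz; `a`, `b` are Schwartz.
(A) `|x| ≥ 2 r |y|`: for `|k| ≤ r` is `|x - k y| ≥ |x|/2`, so `|a(x - k y)| ≤ C (1 + |x|/2)^(-N)`, and
`1 + |x| + |y| ≤ 2 (1 + |x|) ≤ 4 (1 + |x|/2)`.
(B) `|x| < 2 r |y|`, `|y| ≤ 1`: `1 + |x| + |y| ≤ 2 + 2 r`, and `|kern| ≤ sup |a| ∫|Θ|`.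
(C) `|x| < 2 r |y|`, `|y| > 1`: `∂_k^N (b(x - k y)) = (-y)^N b^(N)(x - k y)`, so by `N` integrations by
parts (`integral_mul_deriv_eq_deriv_mul_of_integrable`, or induction on `N` with `Θ^(j)` compactly
supported) `kern = y^(-N) ∫ Θ^(N)(k) b(x - k y) dk`, so `|kern| ≤ C |y|^(-N)` and
`1 + |x| + |y| ≤ (2 + 2 r)|y|`. Induction for (C): `kern (b') Θ x y * y = kern b Θ' x y` for Schwartz `b`
(and the sign: `∂_k b(x - k y) = - y b'(x - k y)`). -/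
def S_KER : Prop := ∀ a : ℝ → ℂ, Nice a → ∀ Θ, Test Θ → ∀ N : ℕ, ∃ C : ℝ, ∀ x y : ℝ,
  ‖kern a Θ x y‖ ≤ C / (1 + |x| + |y|) ^ N

/-- **RAD** (80 lines). Ridge functions of a slope with `W < ∞` and vanishing line integrals.
PROOF. `(p, y) ↦ (p + k y, y)` preserves Lebesgue measure (shear; `measurePreserving` of a linear map of
determinant 1, or Fubini + translation invariance). The function `f(p + k y, y) φ(p)` is integrable on
`ℝ × ℝ` by `W f N k < ⊤`; `integral_prod`, inner integral over `y`: `φ(p) ∫ f(p + k y, y) dy = 0`. -/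
def S_RAD : Prop := ∀ (f : ℝ × ℝ → ℂ) (N : ℕ) (k : ℝ), Measurable f → W f N k < ⊤ → Van f k →
  ∀ φ : ℝ → ℂ, Continuous φ → (∃ C : ℝ, ∀ p, ‖φ p‖ ≤ C / (1 + |p|) ^ N) →
    ∫ q : ℝ × ℝ, f q * φ (q.1 - k * q.2) = 0

/-- **LSC** (50 lines). Fatou: if `k_n → k`, `W f N (k_n) ≤ M` then `W f N k ≤ M`
(`lintegral_liminf_le`, the integrand is continuous in `k`). -/
def S_LSC : Prop := ∀ (f : ℝ × ℝ → ℂ) (N : ℕ) (M : ℝ≥0∞), Measurable f →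
  IsClosed {k : ℝ | W f N k ≤ M}

/-- **LOC** (120 lines). Localisation of additive functionals on test functions.
PROOF. `K = tsupport Θ` is compact. Cover it by finitely many intervals `Ioo (k_i - ε_i) (k_i + ε_i)`,
take a smooth partition of unity `ρ_i` subordinate to it (`SmoothPartitionOfUnity.exists_isSubordinate`,
or by hand: Lebesgue number `δ`, translates of one bump), `Θ = ∑ ρ_i Θ`, each `ρ_i Θ` is a test function
with `tsupport` in the `i`-th interval; additivity (and `F 0 = 0`). -/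
def S_LOC : Prop := ∀ F : (ℝ → ℝ) → ℂ, (∀ Θ₁ Θ₂, Test Θ₁ → Test Θ₂ → F (Θ₁ + Θ₂) = F Θ₁ + F Θ₂) →
  ∀ Θ, Test Θ → (∀ k ∈ tsupport Θ, ∃ ε : ℝ, 0 < ε ∧ ∀ Θ', Test Θ' →
    tsupport Θ' ⊆ Ioo (k - ε) (k + ε) → F Θ' = 0) → F Θ = 0

/-- **GRT** (40 lines). `Gr` is a value of `T`: substitution `k' = k + r s` in `kern`. -/
def S_GRT : Prop := ∀ (f : ℝ × ℝ → ℂ) (a : ℝ → ℂ) (θ : ℝ → ℝ) (r k : ℝ), 0 < r →
  Gr f a θ r k = T f a (fun t => r⁻¹ * θ ((t - k) / r))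

/-- **BAI** (60 lines). Baire: a nonempty closed set `E` of reals covered by countably many closed sets
`F n` has a portion in one of them (`nonempty_interior_of_iUnion_of_closed` in the complete space `E`). -/
def S_BAI : Prop := ∀ (E : Set ℝ) (F : ℕ → Set ℝ), IsClosed E → E.Nonempty → (∀ n, IsClosed (F n)) →
  E ⊆ ⋃ n, F n → ∃ (n : ℕ) (c d : ℝ), (E ∩ Ioo c d).Nonempty ∧ E ∩ Ioo c d ⊆ F n

/-- **L1F** (100 lines). Uniqueness in `L¹(ℝ)` from test functions whose Fourier transform vanishes near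
`0`. PROOF. `∫ g (𝓕 A) = ∫ (𝓕 g) A` (`VectorFourier.integral_fourierIntegral_smul_eq_flip` /
`Real.integral_fourier...`); `𝓕 g` is continuous, so `𝓕 g = 0` on `ℝ \ {0}`, so everywhere. Then
`∫ g φ = ∫ g 𝓕(𝓕⁻¹ φ) = ∫ (𝓕 g)(𝓕⁻¹ φ) = 0` for all test functions `φ`, so `g = 0` a.e.
(`ae_eq_zero_of_integral_contDiff_smul_eq_zero`). -/
def S_L1F : Prop := ∀ g : ℝ → ℂ, Integrable g →
  (∀ A : ℝ → ℂ, ContDiff ℝ ∞ A → HasCompactSupport A → (0 : ℝ) ∉ tsupport A →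
    ∫ x : ℝ, g x * 𝓕 A x = 0) → g =ᵐ[volume] 0

/-- **IDF** (150 lines). A product of Fourier transforms is a superposition of `kern`s.
PROOF. `a = 𝓕(|ξ| A(ξ))`, `Θ` a test function equal to `1` at all `-η/ξ`, `ξ ∈ supp A`, `η ∈ supp B`
(a bounded set as `0 ∉ supp A`). `Nice a`: `iteratedDeriv L (𝓕 g) = 𝓕 ((-2πiξ)^L g)`
(`Real.iteratedDeriv_fourierIntegral` or for Schwartz functions), `g_L = |ξ| A(ξ) / (-2πiξ)^L` is smooth
with compact support because `A` vanishes near `0`. Identity (Fubini, everything is absolutely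
convergent as `𝓕 B` is Schwartz):
`∫_t 𝓕B(t) ∫_k Θ(k) a(x - k(y-t)) = ∫_k Θ(k) ∫_ξ |ξ| A(ξ) e^{-2πiξ(x-ky)} (∫_t 𝓕B(t) e^{-2πiξkt})`
and the inner integral is `𝓕(𝓕B)(kξ) = B(-kξ)` (Fourier inversion); for fixed `ξ` substitute
`η = -kξ`: `∫_k Θ(k) |ξ| e^{2πiξky} B(-kξ) = ∫_η Θ(-η/ξ) e^{-2πiηy} B(η) = 𝓕B(y)`. -/
def S_IDF : Prop := ∀ A B : ℝ → ℂ, ContDiff ℝ ∞ A → HasCompactSupport A → (0 : ℝ) ∉ tsupport A →
  ContDiff ℝ ∞ B → HasCompactSupport B → ∃ (a : ℝ → ℂ) (Θ : ℝ → ℝ), Nice a ∧ Test Θ ∧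
    ∀ x y : ℝ, 𝓕 A x * 𝓕 B y =
      ∫ t : ℝ, 𝓕 B t * kern a Θ x (y - t)

/-- **NUL** (80 lines). Null sets of lines: almost every line `{n · x = 1}` means for almost all slopes
`k`, almost every `x = p + k y` (`n = (1/p, -k/p)`).
PROOF. Let `P` fail on the measurable null set `Z` (`exists_measurable_superset_of_null`). By Fubini for
a.e. `u`, a.e. `v`: `(u,v) ∉ Z`. For `u ≠ 0` the map `k ↦ -k u` preserves null sets, so for a.e. `u`, a.e.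
`k`: `(u, -k u) ∉ Z`; `u = 1/p` (the map `p ↦ 1/p` preserves null sets: image of a null set under a
differentiable function, `addHaar_image_eq_zero_of_differentiableOn_addHaar_eq_zero`). Exchange the order
by Fubini for the measurable set `{(p,k) | (1/p, -k/p) ∈ Z}`. -/
def S_NUL : Prop := ∀ P : ℝ × ℝ → Prop, (∀ᵐ n : ℝ × ℝ, P n) →
  ∀ᵐ k : ℝ, ∀ᵐ p : ℝ, P (1 / p, -k / p)

/-- **LIN** (50 lines). Change of the parameter on a line (`y = n.2/|n|² + s n.1`, `n = (1/p, -k/p)`;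
affine substitution, `integral_comp_mul_left`, `integral_comp_add_right`). -/
def S_LIN : Prop := ∀ (f : ℝ × ℝ → ℂ) (k p : ℝ), p ≠ 0 →
  (∫ s : ℝ, f ((1 / p) / ((1 / p) ^ 2 + (-k / p) ^ 2) - s * (-k / p),
      (-k / p) / ((1 / p) ^ 2 + (-k / p) ^ 2) + s * (1 / p))) = 0 →
    ∫ y : ℝ, f (p + k * y, y) = 0

/-- **TRA** (70 lines). Invariance under translation in `y`.
PROOF. `W f_t N k = ∫ |f(x,y)| (1 + |x - k y + k t|)^(-N) ≤ (1 + |k t|)^N W f N k` as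
`1 + |x - k y| ≤ (1 + |x - k y + k t|)(1 + |k t|)`; on a bounded interval of `k` the constant is bounded;
`∫ f_t(p + k y, y) dy = ∫ f(p - k t + k y, y) dy` (translation). -/
def S_TRA : Prop := ∀ (f : ℝ × ℝ → ℂ) (t : ℝ), Measurable f →
  (∀ k, Good f k → Good (fun q => f (q.1, q.2 + t)) k) ∧
  (∀ k, Van f k → Van (fun q => f (q.1, q.2 + t)) k)

/-- **TEM** (50 lines). `W f N k < ⊤` implies `Tem f N`: `1 + |x - k y| ≤ (1 + |k|)(1 + |x| + |y|)`; and a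
translate of a tempered function is tempered, `1 + |x| + |y| ≤ (1 + |t|)(1 + |x| + |y - t|)`. -/
def S_TEM : Prop := (∀ (f : ℝ × ℝ → ℂ) (N : ℕ) (k : ℝ), Measurable f → W f N k < ⊤ → Tem f N) ∧
  ∀ (f : ℝ × ℝ → ℂ) (N : ℕ) (t : ℝ), Measurable f → Tem f N → Tem (fun q => f (q.1, q.2 + t)) N

/-! ## Level 2: use KER and RAD as hypotheses -/

/-- **ADD** (60 lines). `T f a` is additive on test functions, `T f a 0 = 0`: `f q * kern a Θ` is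
integrable by KER and `Tem f N` (kern is continuous or at least measurable in `q`), and
`kern a (Θ₁ + Θ₂) = kern a Θ₁ + kern a Θ₂`. `theorem main (h : S_KER) : S_ADD`. -/
def S_ADD : Prop := ∀ (f : ℝ × ℝ → ℂ) (N : ℕ) (a : ℝ → ℂ), Measurable f → Tem f N → Nice a →
  ∀ Θ₁ Θ₂, Test Θ₁ → Test Θ₂ → T f a (Θ₁ + Θ₂) = T f a Θ₁ + T f a Θ₂

/-- **ALP** (80 lines). `T` vanishes where `W` is integrable. `theorem main (h : S_RAD) : S_ALP`.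
PROOF. `|a(p)| ≤ C (1 + |p|)^(-N)` (Schwartz), so
`∫_k |Θ(k)| ∫_q |f(q)| |a(x - k y)| ≤ C sup|Θ| ∫_{(c,d)} W f N < ∞`; Fubini: `T f a Θ = ∫ Θ(k) (∫ f(q) a(x - k
y) dq) dk = 0` by RAD for a.e. `k` (`W f N k < ⊤` for a.e. `k` in `(c,d)`). -/
def S_ALP : Prop := ∀ (f : ℝ × ℝ → ℂ) (N : ℕ) (c d : ℝ), Measurable f →
  ∫⁻ t in Ioo c d, W f N t < ⊤ → (∀ᵐ k : ℝ, Van f k) →
    ∀ a, Nice a → ∀ Θ, Test Θ → tsupport Θ ⊆ Ioo c d → T f a Θ = 0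

/-- **LIM** (150 lines). `∫ Θ(k) Gr(r,k) dk → (∫ θ) T f a Θ` as `r → 0`. `theorem main (h : S_KER) : S_LIM`.
PROOF. For fixed `r > 0`, `|kern a θ (x - k y) (r y)| ≤ C (1 + |x - k y| + r|y|)^(-N)` and for `k` in the
support of `Θ`, `1 + |x| + |y| ≤ C_r (1 + |x - k y| + r |y|)`; so Fubini holds:
`∫ Θ(k) Gr = ∫ f(q) ∫ θ(s) kern a Θ (x - s r y) y ds dq` (both are `∫∫∫ f Θ(k) θ(s) a(x - k y - s r y)`).
As `r → 0` dominated convergence: `kern a Θ (x - s r y) y → kern a Θ x y` (kern is continuous in `x`) and for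
`|s| ≤ s₀`, `r ≤ 1`: `|kern a Θ (x - s r y) y| ≤ C (1 + |x - s r y| + |y|)^(-N) ≤ C' (1 + |x| + |y|)^(-N)`. -/
def S_LIM : Prop := ∀ (f : ℝ × ℝ → ℂ) (N : ℕ) (a : ℝ → ℂ), Measurable f → Tem f N → Nice a →
  ∀ Θ θ, Test Θ → Test θ →
    Tendsto (fun n : ℕ => ∫ k : ℝ, (Θ k : ℂ) * Gr f a θ (1 / ((n : ℝ) + 1)) k) atTop
      (𝓝 ((∫ s : ℝ, (θ s : ℂ)) * T f a Θ))

/-- **BND** (60 lines). Uniform bound near a slope with `W < ∞`. `theorem main (h : S_KER) : S_BND`.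
PROOF. `|kern a θ (x - k y) (r y)| ≤ C (1 + |x - k y| + r|y|)^(-N) ≤ C (1 + |x - k₁ y|)^(-N)` because
`|x - k₁ y| ≤ |x - k y| + |k - k₁||y|`. -/
def S_BND : Prop := ∀ a, Nice a → ∀ θ, Test θ → ∀ N : ℕ, ∃ C : ℝ, 0 ≤ C ∧
  ∀ (f : ℝ × ℝ → ℂ), Measurable f → ∀ r k k₁ : ℝ, 0 < r → |k - k₁| ≤ r → W f N k₁ < ⊤ →
    ‖Gr f a θ r k‖ ≤ C * (W f N k₁).toReal

/-- **PTW** (70 lines). `Gr(r,k) → 0` at slopes with `W < ∞` and vanishing integrals.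
`theorem main (h : S_KER) (h' : S_RAD) : S_PTW`.
PROOF. `kern a θ (x - k y) (r y) → (∫θ) a(x - k y)` as `r → 0` (continuity of `a`, dominated), bounded by
`C (1 + |x - k y|)^(-N)` (KER), so `Gr → (∫θ) ∫ f(q) a(x - k y) dq = 0` by RAD. -/
def S_PTW : Prop := ∀ (f : ℝ × ℝ → ℂ) (N : ℕ) (k : ℝ), Measurable f → W f N k < ⊤ → Van f k →
  ∀ a, Nice a → ∀ θ, Test θ →
    Tendsto (fun n : ℕ => Gr f a θ (1 / ((n : ℝ) + 1)) k) atTop (𝓝 0)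

/-- **PAI** (80 lines). `theorem main (h : S_KER) (hi : S_IDF) (ht : S_TEM) : S_PAI`.
PROOF. By IDF `𝓕A(x) 𝓕B(y) = ∫ 𝓕B(t) kern a Θ x (y - t) dt`; Fubini:
`∫ f 𝓕A 𝓕B = ∫_t 𝓕B(t) ∫ f(x,y) kern a Θ x (y - t) = ∫_t 𝓕B(t) T f_t a Θ dt = 0`, `f_t(x,y) = f(x, y + t)`
(translation of `y`). Integrability: `|kern a Θ x (y-t)| ≤ C (1 + |x| + |y-t|)^(-N) ≤ C (1 + |t|)^N (1 +
|x| + |y|)^(-N)` and `𝓕B` is Schwartz. -/
def S_PAI : Prop := ∀ (f : ℝ × ℝ → ℂ) (N : ℕ), Measurable f → Tem f N →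
  (∀ t : ℝ, ∀ a, Nice a → ∀ Θ, Test Θ → T (fun q => f (q.1, q.2 + t)) a Θ = 0) →
  ∀ A B : ℝ → ℂ, ContDiff ℝ ∞ A → HasCompactSupport A → (0 : ℝ) ∉ tsupport A →
    ContDiff ℝ ∞ B → HasCompactSupport B →
      ∫ q : ℝ × ℝ, f q * (𝓕 A q.1 * 𝓕 B q.2) = 0

/-- **FIN** (130 lines). `theorem main (h : S_L1F) : S_FIN`.
PROOF. Fix `B`. `|𝓕B(y)| ≤ C (1 + |y|)^(-N)`, so `g(x) = ∫ f(x,y) 𝓕B(y) dy` is in `L¹` (second hypothesis)
and `∫ g 𝓕A = 0` for all `A` with `0 ∉ supp A`: `g = 0` a.e. by L1F. So for every test function `u`: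
`∫∫ f u(x) 𝓕B(y) = 0`; `h(y) = ∫ f(x,y) u(x) dx ∈ L¹` (first hypothesis, `|u(x)| ≤ C (1 + |x|)^(-N)`) and
`∫ h 𝓕B = 0` for all `B`: `h = 0` a.e. So `∫∫ f u(x) v(y) = 0` for all test functions `u, v`, and `f = 0`
a.e.: e.g. `f(x,·)`, by a countable family: or approximate indicators of intervals: the complex measure
`f·1_K` vanishes on all rectangles (`u`, `v` → indicators of intervals by dominated convergence),
π-λ: `Measure.prod` rectangles generate; `ae_eq_zero_of_forall_setIntegral_eq_zero`... -/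
def S_FIN : Prop := ∀ (f : ℝ × ℝ → ℂ) (N : ℕ), Measurable f →
  ∫⁻ q : ℝ × ℝ, ENNReal.ofReal (‖f q‖ / (1 + |q.1|) ^ N) < ⊤ →
  ∫⁻ q : ℝ × ℝ, ENNReal.ofReal (‖f q‖ / (1 + |q.2|) ^ N) < ⊤ →
  (∀ A B : ℝ → ℂ, ContDiff ℝ ∞ A → HasCompactSupport A → (0 : ℝ) ∉ tsupport A →
    ContDiff ℝ ∞ B → HasCompactSupport B →
      ∫ q : ℝ × ℝ, f q * (𝓕 A q.1 * 𝓕 B q.2) = 0) →
  f =ᵐ[volume] 0

/-- **POR** (150 lines). The portion. `theorem main (hg : S_GRT) (hl : S_LIM) (hb : S_BND) (hp : S_PTW) :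
S_POR`.
PROOF. Take a test function `θ` with `tsupport θ ⊆ [-1,1]`, `∫ θ = 1` (`ContDiffBump`). Let `K = tsupport Θ`,
`r₀ > 0` with `Metric.thickening`/distance of `K` to the complement of `(c,d)` at least `r₀`. For `r < r₀`
and `k ∈ K`: if there is `k₁ ∈ E` with `|k - k₁| ≤ r` then `k₁ ∈ E ∩ (c,d)` and `|Gr(r,k)| ≤ C M` (BND);
otherwise `Gr(r,k) = T f a (t ↦ r⁻¹ θ((t-k)/r)) = 0` (GRT), a test function with tsupport in
`[k - r, k + r]`, disjoint from `E`. Pointwise for a.e. `k ∈ K`: if `k ∉ E` then `Gr(r,k) = 0` for small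
`r` (`E` closed); if `k ∈ E` then `Gr → 0` by PTW. Dominated convergence: `∫ Θ Gr → 0`, so by LIM
`T f a Θ = 0`. (Measurability of `k ↦ Gr f a θ r k`: joint measurability, `StronglyMeasurable.integral_prod`.) -/
def S_POR : Prop := ∀ (f : ℝ × ℝ → ℂ) (N : ℕ) (a : ℝ → ℂ), Measurable f → Nice a →
  (∀ᵐ k : ℝ, Van f k) → ∀ (E : Set ℝ) (c d : ℝ) (M : ℝ≥0∞), IsClosed E → M < ⊤ →
    (∀ k ∈ E, c < k → k < d → W f N k ≤ M) → Tem f N →
    (∀ Θ, Test Θ → Disjoint (tsupport Θ) E → T f a Θ = 0) →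
    ∀ Θ, Test Θ → tsupport Θ ⊆ Ioo c d → T f a Θ = 0

/-- **ZER** (130 lines). `theorem main (ha : S_ADD) (hal : S_ALP) (hl : S_LSC) (hlo : S_LOC) (hb : S_BAI)
(hp : S_POR) : S_ZER`.
PROOF. Fix `a`. `E = {k | ∀ ε > 0, ∃ Θ test, tsupport Θ ⊆ Ioo (k-ε) (k+ε) ∧ T f a Θ ≠ 0}` is closed. By LOC
(with ADD) `T f a Θ = 0` if `tsupport Θ` is disjoint from `E`. If `E` is empty we are done. Otherwise: for
`k ∈ E` the second alternative of `Good` is impossible (ALP), so `W f N k < ⊤` for some `N`: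
`E ⊆ ⋃_{n} {k | W f n.1 k ≤ n.2}` (over pairs of naturals, encode by `ℕ`); by LSC, BAI there are `N`, `M` and
`(c,d)` meeting `E` with `W f N k ≤ M` on `E ∩ (c,d)`. POR (with exponent `max N N₀`: `W` decreases in `N`,
`Tem` too): `T f a Θ = 0` for all tests in `(c,d)`, contradiction with the definition of `E`. -/
def S_ZER : Prop := ∀ (f : ℝ × ℝ → ℂ) (N₀ : ℕ), Measurable f → Tem f N₀ → (∀ k, Good f k) →
  (∀ᵐ k : ℝ, Van f k) → ∀ a, Nice a → ∀ Θ, Test Θ → T f a Θ = 0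

/-! ## Level 3: general directions -/

/-- `Wn f N n = ∫ |f(x)| (1 + |n·x|)^(-N) dx` -/
noncomputable def Wn (f : ℝ × ℝ → ℂ) (N : ℕ) (n : ℝ × ℝ) : ℝ≥0∞ :=
  ∫⁻ q : ℝ × ℝ, ENNReal.ofReal (‖f q‖ / (1 + |n.1 * q.1 + n.2 * q.2|) ^ N)

/-- the hypothesis on the direction `n`: `Wn f N n < ∞` for some `N`, or `Wn f N` is integrable near `n`
for some `N` -/
def GoodN (f : ℝ × ℝ → ℂ) (n : ℝ × ℝ) : Prop :=
  (∃ N : ℕ, Wn f N n < ⊤) ∨
    ∃ (N : ℕ) (ε : ℝ), 0 < ε ∧ ∫⁻ m in Metric.ball n ε, Wn f N m < ⊤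

/-- the integrals over almost all lines `{x | n·x = 1}` vanish -/
def LineZero (f : ℝ × ℝ → ℂ) : Prop :=
  ∀ᵐ n : ℝ × ℝ, ∫ s : ℝ, f (n.1 / (n.1 ^ 2 + n.2 ^ 2) - s * n.2,
    n.2 / (n.1 ^ 2 + n.2 ^ 2) + s * n.1) = 0

/-- **ALS** (120 lines).
PROOF. First alternative: `1 * x + (-k) * y = x - k y`. Second: choose `0 < δ ≤ 1/2` such that
`(u, -u k') ∈ ball (1,-k) ε` for `|u-1| < δ`, `|k'-k| < δ`. There
`1 + |u||x - k' y| ≤ (3/2)(1 + |x - k' y|)`, so `W f N k' ≤ (3/2)^N Wn f N (u, -u k')`. Integrate over `u` and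
`k'` (Tonelli, substitution `v = -u k'`, `dv = |u| dk'`):
`2δ ∫_{|k'-k|<δ} W f N k' ≤ (3/2)^N ∫_u ∫_v Wn f N (u,v) dv/|u| du ≤ 2 (3/2)^N ∫_ball Wn f N < ∞`. -/
def S_ALS : Prop := ∀ (f : ℝ × ℝ → ℂ) (k : ℝ), Measurable f → GoodN f (1, -k) → Good f k

/-- **EXN** (70 lines). Two independent directions with `Wn < ∞`: in the ball of radius `1/4` around
`(1,0)` (and `(0,1)`) there is a point with `Wn f N < ⊤`: the centre, or almost every point near it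
(`ae_lt_top`, balls have positive measure). Common `N`: `Wn` decreases in `N`. -/
def S_EXN : Prop := ∀ f : ℝ × ℝ → ℂ, Measurable f → (∀ n : ℝ × ℝ, n ≠ 0 → GoodN f n) →
  ∃ (n₁ n₂ : ℝ × ℝ) (N : ℕ), n₁.1 * n₂.2 - n₁.2 * n₂.1 ≠ 0 ∧ Wn f N n₁ < ⊤ ∧ Wn f N n₂ < ⊤

/-- **GEO** (180 lines). Linear change of variables `u = n₁·x`, `v = n₂·x`, `D = n₁.1 n₂.2 - n₁.2 n₂.1`,
`g(u,v) = f(x)`. PROOF. `du dv = |D| dx` (`MeasureTheory.Measure.addHaar...`, or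
`lintegral_comp` for the linear equivalence, `map_matrix_volume_pi_eq_smul_volume_pi`), and
`n.1 u + n.2 v = (Ln)·x`, `Ln = (n.1 n₁.1 + n.2 n₂.1, n.1 n₁.2 + n.2 n₂.2)`. `GoodN`: the linear
isomorphism `L` maps a small ball around `n` into a given ball around `Ln`, change variables again.
`LineZero`: `L` preserves null sets; the line `{n·u = 1}` is mapped to `{Ln·x = 1}`, and
`x(s) = x₀ + s (-(Ln).2, (Ln).1)/D`: affine substitution (also of the base point). -/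
def S_GEO : Prop := ∀ (f : ℝ × ℝ → ℂ) (n₁ n₂ : ℝ × ℝ), Measurable f →
  n₁.1 * n₂.2 - n₁.2 * n₂.1 ≠ 0 →
  ∃ g : ℝ × ℝ → ℂ, Measurable g ∧
    (∀ N : ℕ, Wn f N n₁ < ⊤ → Wn g N (1, 0) < ⊤) ∧ (∀ N : ℕ, Wn f N n₂ < ⊤ → Wn g N (0, 1) < ⊤) ∧
    ((∀ n : ℝ × ℝ, n ≠ 0 → GoodN f n) → ∀ n : ℝ × ℝ, n ≠ 0 → GoodN g n) ∧
    (LineZero f → LineZero g) ∧ (g =ᵐ[volume] 0 → f =ᵐ[volume] 0)

/-- **KNO** (90 lines). The classical class satisfies the hypothesis, with `N = 2`, `ε = 1`.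
PROOF. Tonelli; `∫_{|m-n|<1} (1 + |m·x|)^(-2) dm ≤ C / (1 + |x.1| + |x.2|)`: if `|x.1| ≥ |x.2|` integrate
over `m.1` first: `∫_{|m.1-n.1|<1} (1 + |m.1 x.1 + c|)^(-2) dm.1 ≤ min 2 (2/|x.1|)`. -/
def S_KNO : Prop := ∀ f : ℝ × ℝ → ℂ, Measurable f →
  ∫⁻ q : ℝ × ℝ, ENNReal.ofReal (‖f q‖ / (1 + |q.1| + |q.2|)) < ⊤ → ∀ n : ℝ × ℝ, GoodN f n

end Pool.Agent.H77.RT
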