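import Pool.Agent.H77.RT.Stm2

/-!
# Project RT, part 3: the spectrum of a counterexample

THEOREM. Let `f` be in the class of Q1 (continuous, polynomially bounded, integrable with integral zero on
every line). Then the directions of the support of the Fourier transform of `f` form a closed set with
empty interior; near each of them there are uncountably many singular directions `n` with
`∫ |f(x)| (1 + |n·x|)^(-N) dx = ∞` for all `N`; and `f = 0` if there is no singular direction.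

File `Pool/Agent/H77/RT/T/NAME.lean`, `import Pool.Agent.H77.RT.Stm3`, namespace
`Pool.Agent.H77.RT.T.NAME`, `theorem main : S_NAME` (used stubs as hypotheses).
-/

set_option autoImplicit false

namespace Pool.Agent.H77.RT

open MeasureTheory Filter Topology Set
open scoped ENNReal ContDiff FourierTransform

/-- smooth complex functions with compact support on the plane -/
def Sm2 (Φ : ℝ × ℝ → ℂ) : Prop := ContDiff ℝ ∞ Φ ∧ HasCompactSupport Φ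

/-- the Fourier integral on the plane -/
noncomputable def FT (Φ : ℝ × ℝ → ℂ) (x : ℝ × ℝ) : ℂ :=
  ∫ m : ℝ × ℝ, Φ m * Complex.exp (((-2 * Real.pi * (m.1 * x.1 + m.2 * x.2) : ℝ) : ℂ) * Complex.I)

/-- the class of Q1, with integral zero on every line -/
def Cls (f : ℝ × ℝ → ℂ) : Prop :=
  Continuous f ∧ (∃ (c : ℝ) (m : ℕ), ∀ x, ‖f x‖ ≤ c * (1 + ‖x‖ ^ m)) ∧
    ∀ x v : ℝ × ℝ, v ≠ 0 →
      Integrable (fun s : ℝ => f (x + s • v)) ∧ ∫ s : ℝ, f (x + s • v) = 0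

/-- the singular directions: `n ≠ 0` such that the Fourier transform of `f` (a tempered distribution)
does not vanish in any cone around `n` -/
def Sing (f : ℝ × ℝ → ℂ) : Set (ℝ × ℝ) :=
  {n | n ≠ 0 ∧ ∀ ε : ℝ, 0 < ε → ∃ Φ, Sm2 Φ ∧
    (∀ m ∈ tsupport Φ, m ≠ 0 ∧ |m.1 * n.2 - m.2 * n.1| < ε * ‖m‖) ∧
      ∫ x : ℝ × ℝ, f x * FT Φ x ≠ 0}

/-- all tests with slopes in `U` vanish -/
def VanT (f : ℝ × ℝ → ℂ) (U : Set ℝ) : Prop :=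
  ∀ t : ℝ, ∀ a, Band a → ∀ Θ, Test Θ → tsupport Θ ⊆ U → T (tr f t) a Θ = 0

/-- the Fourier transform of `f` vanishes at the slopes in `U` -/
def VanF (f : ℝ × ℝ → ℂ) (U : Set ℝ) : Prop :=
  ∀ Φ, Sm2 Φ → (∀ m ∈ tsupport Φ, m.1 ≠ 0 ∧ -m.2 / m.1 ∈ U) → ∫ x : ℝ × ℝ, f x * FT Φ x = 0

/-- **BOX** (80 lines). Baire in the space of lines. PROOF. `C_M = {(k,p) ∈ [c,d] × [0,1] |
∫⁻ ‖f (p + k y, y)‖ dy ≤ M}` is closed (Fatou, `f` continuous), the union over natural `M` is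
`[c,d] × [0,1]`; by Baire (`nonempty_interior_of_iUnion_of_closed` with the closed sets
`C_M ∪ (closure of the complement of the box)` or in the complete subtype) some `C_M` contains an open box. -/
def S_BOX : Prop := ∀ f : ℝ × ℝ → ℂ, Continuous f →
  (∀ k p : ℝ, Integrable fun y : ℝ => f (p + k * y, y)) → ∀ c d : ℝ, c < d →
  ∃ c' d' a b M : ℝ, c ≤ c' ∧ c' < d' ∧ d' ≤ d ∧ a < b ∧ ∀ k ∈ Ioo c' d', ∀ p ∈ Ioo a b,
    ∫⁻ y : ℝ, ENNReal.ofReal ‖f (p + k * y, y)‖ ≤ ENNReal.ofReal M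

/-- **CON** (150 lines). PROOF. `D = d - c`, `(c₁,d₁) = (c + D/4, d - D/4)`, `(c',d') = (c + D/3, d - D/3)`,
`N' = max N 2`. (i) Integrate over `k ∈ (c,d)`, `p ∈ (a,b)`, Tonelli, `x = p + k y`:
`∫∫ |f(x,y)| vol{k ∈ (c,d) | x - k y ∈ (a,b)} dx dy < ∞`. (ii) If `|y| ≥ Y`, `(|a|+|b|)/Y ≤ D/8`, `Y ≥ 1` and
`x/y ∈ (c₁,d₁)` this volume is `(b-a)/|y|`; so `∫ |f|/|y| < ∞` over this region. (iii) There
`∫_k (1 + |x - k y|)^(-N') dk ≤ ∫ (1 + |x - k y|)^(-2) dk = 2/|y|`. If `|y| ≥ Y`, `x/y ∉ (c₁,d₁)`: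
`|x - k y| ≥ |y| D/12` and `|x| ≤ |x - k y| + |k||y|`, so `1 + |x| + |y| ≤ C (1 + |x - k y|)` for
`k ∈ (c',d')`; the same if `|y| ≤ Y`. So the inner integral is `≤ C (1 + |x| + |y|)^(-N)` there. -/
def S_CON : Prop := ∀ (f : ℝ × ℝ → ℂ) (N : ℕ) (c d a b M : ℝ), Measurable f → Tem f N → c < d → a < b →
  (∀ k ∈ Ioo c d, ∀ p ∈ Ioo a b,
    ∫⁻ y : ℝ, ENNReal.ofReal ‖f (p + k * y, y)‖ ≤ ENNReal.ofReal M) →
  ∃ (c' d' : ℝ) (N' : ℕ), c ≤ c' ∧ c' < d' ∧ d' ≤ d ∧ ∫⁻ t in Ioo c' d', W f N' t < ⊤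

/-- **KFT** (100 lines). `Φ(ξ,η) = A(ξ) Θ(-η/ξ) |ξ|^(-1) e^{2πiηt}` (`0` for `ξ = 0`), smooth because `A`
vanishes near `0`. Fubini and, for fixed `ξ`, the substitution `η = -ξ k`. -/
def S_KFT : Prop := ∀ (A : ℝ → ℂ) (Θ : ℝ → ℝ) (t : ℝ), Sm A → (0 : ℝ) ∉ tsupport A → Test Θ →
  ∃ Φ, Sm2 Φ ∧ (∀ m ∈ tsupport Φ, m.1 ≠ 0 ∧ m.1 ∈ tsupport A ∧ -m.2 / m.1 ∈ tsupport Θ) ∧
    ∀ x y : ℝ, kern (𝓕 A) Θ x (y - t) = FT Φ (x, y)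

/-- **KTF** (50 lines). `theorem main (h : S_KFT) : S_KTF`. `T (tr f t) a Θ = ∫ f(x,y) kern a Θ x (y - t)`
(translation). -/
def S_KTF : Prop := ∀ (f : ℝ × ℝ → ℂ) (U : Set ℝ), Measurable f → VanF f U → VanT f U

/-- **FTK** (150 lines). `theorem main (h : S_KER) (hb : S_BNI) (hs : S_SHR) : S_FTK`.
PROOF (compare IDG, PAG). `A₁` smooth with compact support, `0 ∉ tsupport A₁`, `A₁ = 1` on the first
projection of `tsupport Φ`; `Θ₁` a test function, `tsupport Θ₁ ⊆ U`, `Θ₁ = 1` on the compact set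
`{-m.2/m.1 | m ∈ tsupport Φ}`; `a₁ = 𝓕(|ξ| A₁)`. With `η = -ξ k`:
`FT Φ (x,y) = ∫_k Θ₁(k) ∫_ξ |ξ| A₁(ξ) Φ(ξ,-ξk) e^{-2πiξ(x-ky)} dξ dk`, and by Fourier inversion in both
variables `Φ(ξ,η) = ∫∫ FT Φ(s,t) e^{2πi(ξs+ηt)} ds dt` (one-dimensional inversion twice), so
`FT Φ (x,y) = ∫∫ FT Φ (s,t) kern a₁ Θ₁ (x - s) (y - t) ds dt`; `FT Φ` decays like every `(1+|s|+|t|)^(-K)`. Fubini:
`∫ f FT Φ = ∫∫ FT Φ (s,t) T (tr f t) (a₁(· - s)) Θ₁ ds dt = 0` (translates of `Band` are `Band`: SHR), with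
`|kern a₁ Θ₁ (x-s) (y-t)| ≤ C (1+|s|+|t|)^N (1+|x|+|y|)^(-N)`. -/
def S_FTK : Prop := ∀ (f : ℝ × ℝ → ℂ) (N : ℕ) (U : Set ℝ), Measurable f → Tem f N → IsOpen U →
  VanT f U → VanF f U

/-- **SLO** (80 lines). With `z = -n.2/n.1`, `κ = -m.2/m.1`: `m.1 * n.2 - m.2 * n.1 = m.1 * n.1 * (κ - z)`,
`‖m‖ = |m.1| max 1 |κ|`; for `m.1 = 0` the determinant is `‖m‖ |n.1|` in absolute value. If
`|n.1||κ - z| < ε max 1 |κ|` with `ε ≤ |n.1|/2` then `|κ| ≤ 2|z| + 1`. -/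
def S_SLO : Prop := ∀ (f : ℝ × ℝ → ℂ) (n : ℝ × ℝ), n.1 ≠ 0 →
  (n ∉ Sing f ↔ ∃ δ : ℝ, 0 < δ ∧ VanF f (Ioo (-n.2 / n.1 - δ) (-n.2 / n.1 + δ)))

/-- **CLO** (50 lines). `|m.1 * n.2 - m.2 * n.1| ≤ |m.1 * n'.2 - m.2 * n'.1| + 2 * ‖m‖ * ‖n - n'‖`. -/
def S_CLO : Prop := ∀ f : ℝ × ℝ → ℂ, IsClosed (Sing f ∪ {0})

/-- **LZE** (local form of ZE2; 200 lines, adapt `T/ZE2.lean`). `theorem main (ha : S_ADD) (hal : S_ALP)
(hl : S_LSC) (hlo : S_LOC) (hb : S_BAI) (hp : S_POR) (ht : S_TRA) (hte : S_TEM) (htw : S_TRW) (hs : S_SHR)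
(hi : S_ISO) (hbn : S_BNI) : S_LZE`.
PROOF. `E = {k | ¬ ∃ ε > 0, VanT f (Ioo (k-ε) (k+ε))}` is closed; `VanT f V` for open... every `V` disjoint from
`E` (LOC, ADD). Suppose `E ∩ (c,d) ≠ ∅`; take `c < c₁ < d₁ < d` with `E ∩ (c₁,d₁) ≠ ∅` and do Baire for the closed set
`E ∩ [c₁,d₁]` as in ZE2 (portions inside `(c₁,d₁)`: if the portion found only meets the end points of `[c₁,d₁]`,
note that a portion of `E ∩ [c₁,d₁]` is a nonempty set `E ∩ [c₁,d₁] ∩ (a,b)`; choose `c₁, d₁ ∉ E` if possible, or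
apply BAI to the closed set `closure (E ∩ (c₁,d₁))`, every portion of which meets `(c₁,d₁)`). -/
def S_LZE : Prop := ∀ (f : ℝ × ℝ → ℂ) (N₀ : ℕ) (c d : ℝ) (Z : Set ℝ), Measurable f → Tem f N₀ →
  Z.Countable → (∀ᵐ k : ℝ, Van f k) →
  (∀ k, c < k → k < d → (∃ ε : ℝ, 0 < ε ∧ VanT f (Ioo (k - ε) (k + ε))) ∨ Good f k ∨
    (k ∈ Z ∧ ∀ᵐ p : ℝ, Integrable fun y : ℝ => f (p + k * y, y))) →
  VanT f (Ioo c d)

/-- **POL** (80 lines). `theorem main (h : S_TAY) : S_POL`. PROOF. TAY with `c = 1` for every `n` (the `D` with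
`∫ ... ≤ D ≤ D 2^(nK)`): `u = P_n + e_n` a.e., degree of `P_n` at most `q`, `e_n → 0` pointwise. So `P_n(x)`
converges for a.e. `x`, `q+1` points determine `P_n` (Lagrange): `P_n → P` and `u = P` a.e. (see `T/SEQ.lean`). -/
def S_POL : Prop := ∀ K : ℕ, ∃ q : ℕ, ∀ u : ℝ → ℂ, Measurable u →
  ∫⁻ x : ℝ, ENNReal.ofReal (‖u x‖ / (1 + |x|) ^ K) < ⊤ →
  (∀ A, Sm A → (0 : ℝ) ∉ tsupport A → ∫ x : ℝ, u x * 𝓕 A x = 0) →
  ∃ P : Polynomial ℂ, P.natDegree ≤ q ∧ u =ᵐ[volume] fun x => P.eval (x : ℂ)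

/-- **EVL** (130 lines). `theorem main (h : S_POL) : S_EVL`. PROOF. Fix `y₀`. `X` smooth with compact support,
`X 0 = 1`, `B_R(η) = X(η/R) e^{2πiηy₀}`, `𝓕 B_R (y) = R (𝓕X)(R(y - y₀))`. `g_R(x) = ∫ f(x,y) 𝓕B_R(y) dy` is
polynomially bounded and (Fubini) `∫ g_R 𝓕A = 0` if `0 ∉ tsupport A`; by POL `g_R` is a.e. a polynomial of degree
`≤ q`, `q` independent of `R`; `g_R(x) → f(x,y₀)` as `R → ∞` for every `x` (`∫ 𝓕X = X 0 = 1`). So `f(·,y₀)` is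
a.e., by continuity everywhere, a polynomial; it is integrable, so it is `0`. -/
def S_EVL : Prop := ∀ f : ℝ × ℝ → ℂ, Continuous f →
  (∃ (c : ℝ) (m : ℕ), ∀ x, ‖f x‖ ≤ c * (1 + ‖x‖ ^ m)) → (∀ y : ℝ, Integrable fun x : ℝ => f (x, y)) →
  (∀ A B : ℝ → ℂ, Sm A → (0 : ℝ) ∉ tsupport A → Sm B →
    ∫ q : ℝ × ℝ, f q * (𝓕 A q.1 * 𝓕 B q.2) = 0) → ∀ x, f x = 0

/-- **SWP** (80 lines). Symmetry. Use `Φ' m = Φ (m.2, m.1)` and that the swap preserves the volume. -/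
def S_SWP : Prop := ∀ f : ℝ × ℝ → ℂ, (Cls f → Cls fun q => f (q.2, q.1)) ∧
  (∀ n : ℝ × ℝ, n ∈ Sing f ↔ (n.2, n.1) ∈ Sing fun q => f (q.2, q.1)) ∧
  ∀ (N : ℕ) (n : ℝ × ℝ), Wn (fun q => f (q.2, q.1)) N (n.2, n.1) = Wn f N n

/-- **CLT** (80 lines). `N = m + 3`; lines `p + k y` have `x = (p,0)`, `v = (k,1)`. -/
def S_CLT : Prop := ∀ f : ℝ × ℝ → ℂ, Cls f → (∃ N, Tem f N) ∧
  (∀ k p : ℝ, Integrable fun y : ℝ => f (p + k * y, y)) ∧ (∀ k, Van f k) ∧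
  ∀ y : ℝ, Integrable fun x : ℝ => f (x, y)

/-- **GDS** (60 lines). If `W f N` is integrable on `(c,d)` then `VanT f (Ioo c d)`:
`theorem main (h : S_LZE) : S_GDS` (every slope in `(c,d)` is `Good`, `Z = ∅`). -/
def S_GDS : Prop := ∀ (f : ℝ × ℝ → ℂ) (N₀ N : ℕ) (c d : ℝ), Measurable f → Tem f N₀ →
  (∀ᵐ k : ℝ, Van f k) → ∫⁻ t in Ioo c d, W f N t < ⊤ → VanT f (Ioo c d)

end Pool.Agent.H77.RT
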